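import Pool.Agent.L5helper51.MD.Red

set_option autoImplicit false

/-!
A subshift of finite type on `HG × ℤ` has a computable point or lies above the class of
`{0, 1}`-valued diagonally non-computable functions.
-/

namespace Pool.Agent.L5helper51.MD

open Encodable Nat.Partrec
open Pool.Agent.H715R3.Sof (wordVal pull seg IsSFT MedvedevLe Occurs)
open Pool.Agent.Y602.ST (DNR2)

/-- An invariant point of a subshift of finite type gives an invariant periodic point. -/
theorem exists_periodic {K : Type} [Group K] {k : ℕ} {X : Set (K × Multiplicative ℤ → Fin k)}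
    (hX : IsSFT X) {x : K × Multiplicative ℤ → Fin k} (hx : x ∈ X)
    (hinv : ∀ g n, x (g, n) = x (1, n)) :
    ∃ (z : ℤ → Fin k) (p : ℕ), 0 < p ∧ (∀ n, z (n + p) = z n) ∧
      (fun g : K × Multiplicative ℤ => z (Multiplicative.toAdd g.2)) ∈ X := by
  classical
  obtain ⟨F, hF, rfl⟩ := hX
  -- bound for the supports
  obtain ⟨N, hN⟩ : ∃ N : ℕ, ∀ p ∈ F, ∀ q ∈ p, (Multiplicative.toAdd q.1.2).natAbs ≤ N := by
    let S : Finset ((K × Multiplicative ℤ) × Fin k) := hF.toFinset.biUnion id
    refine ⟨S.sup (fun q => (Multiplicative.toAdd q.1.2).natAbs), fun p hp q hq => ?_⟩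
    exact Finset.le_sup (f := fun q : (K × Multiplicative ℤ) × Fin k =>
      (Multiplicative.toAdd q.1.2).natAbs) (Finset.mem_biUnion.2 ⟨p, hF.mem_toFinset.2 hp, hq⟩)
  let z : ℤ → Fin k := fun n => x (1, Multiplicative.ofAdd n)
  -- pigeonhole
  obtain ⟨i, j, hij, hw⟩ : ∃ i j : ℕ, i < j ∧
      (fun t : Fin (2 * N + 1) => z (i + t.val)) = fun t : Fin (2 * N + 1) => z (j + t.val) := by
    obtain ⟨a, b, hab, he⟩ := Finite.exists_ne_map_eq_of_infinite
      (fun i : ℕ => (fun t : Fin (2 * N + 1) => z (i + t.val)))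
    rcases lt_or_gt_of_ne hab with h | h
    · exact ⟨a, b, h, he⟩
    · exact ⟨b, a, h, he.symm⟩
  set p : ℤ := (j : ℤ) - i with hp
  have hp0 : 0 < p := by omega
  let z' : ℤ → Fin k := fun n => z (i + (n - i) % p)
  have hper : ∀ n, z' (n + p) = z' n := by
    intro n
    simp only [z']
    have : (n + p - i) % p = (n - i) % p := by
      have : n + p - i = n - i + p := by ring
      rw [this, Int.add_emod_right]
    rw [this]
  have hagree : ∀ m : ℕ, (m : ℤ) < p + (2 * N + 1) → z' (i + m) = z (i + m) := by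
    intro m
    induction m using Nat.strong_induction_on with
    | _ m ih =>
      intro hm
      by_cases h : (m : ℤ) < p
      · simp only [z']
        have : ((i : ℤ) + m - i) % p = m := by
          have : (i : ℤ) + m - i = m := by ring
          rw [this]
          exact Int.emod_eq_of_lt (by omega) h
        rw [this]
      · push Not at h
        obtain ⟨m', hm'⟩ : ∃ m' : ℕ, (m' : ℤ) = m - p := ⟨((m : ℤ) - p).toNat, by omega⟩
        have h1 : (i : ℤ) + m = (i + m') + p := by rw [hm']; ring
        rw [h1, hper, ih m' (by omega) (by omega)]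
        have h2 := congrFun hw ⟨m', by omega⟩
        simp only at h2
        rw [h2]
        congr 1
        omega
  have hwin : ∀ n : ℤ, ∃ n' : ℤ, ∀ o : ℤ, o.natAbs ≤ N → z' (n + o) = z (n' + o) := by
    intro n
    have hr0 := Int.emod_nonneg (n - N - i) hp0.ne'
    have hr1 := Int.emod_lt_of_pos (n - N - i) hp0
    have hr2 := Int.emod_add_mul_ediv (n - N - i) p
    set r := (n - N - i) % p with hr
    set q := (n - N - i) / p with hq
    refine ⟨i + r + N, fun o ho => ?_⟩
    obtain ⟨m, hm⟩ : ∃ m : ℕ, (m : ℤ) = r + N + o := ⟨(r + N + o).toNat, by omega⟩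
    have h1 := hagree m (by omega)
    have h2 : (i : ℤ) + r + N + o = i + m := by rw [hm]; ring
    rw [h2, ← h1]
    simp only [z']
    have h3 : (n + o - i) % p = (i + m - i) % p := by
      have : n + o - i = (i + m - i) + p * q := by
        rw [hm]; linear_combination -hr2
      rw [this, Int.add_mul_emod_self_left]
    rw [h3]
  refine ⟨z', j - i, by omega, fun n => ?_, ?_⟩
  · have e : ((j - i : ℕ) : ℤ) = p := by omega
    rw [e]; exact hper n
  intro pt hpt g hocc
  obtain ⟨n', hn'⟩ := hwin (Multiplicative.toAdd g.2)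
  refine hx pt hpt (1, Multiplicative.ofAdd n') ?_
  intro q hq
  have h1 := hocc q hq
  have h2 := hn' (Multiplicative.toAdd q.1.2) (hN pt hpt q hq)
  have h3 : x ((1, Multiplicative.ofAdd n') * q.1) = z (n' + Multiplicative.toAdd q.1.2) := by
    simp only [z]
    exact hinv _ _
  rw [h3, ← h2]
  exact h1

lemma per_nat {k : ℕ} {z : ℤ → Fin k} {p : ℕ} (hper : ∀ n, z (n + p) = z n) (n : ℤ) (m : ℕ) :
    z (n + m * p) = z n := by
  induction m with
  | zero => simp
  | succ m ih =>
    have : n + ((m + 1 : ℕ) : ℤ) * p = (n + m * p) + p := by push_cast; ring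
    rw [this, hper, ih]

/-- Periodic invariant points are computable. -/
lemma periodic_computable {k : ℕ} {X : Set (G2 → Fin k)} {z : ℤ → Fin k} {p : ℕ} (hp : 0 < p)
    (hper : ∀ n, z (n + p) = z n)
    (hx : (fun g : G2 => z (Multiplicative.toAdd g.2)) ∈ X) :
    ∃ y ∈ pull gens2 X, Computable y := by
  let y : ℕ → ℕ := fun n => (decode n : Option (List (Fin 100 × Bool))).elim 0
    (fun w => (z (Multiplicative.toAdd (wordVal gens2 w).2)).val)
  refine ⟨y, ⟨_, hx, fun n => rfl⟩, ?_⟩
  let T : List ℕ := List.ofFn (fun i : Fin p => (z (i.val : ℤ)).val)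
  have h1 : Primrec (fun w : Wd2 => ((zs w).1 + (p - 1) * (zs w).2) % p) :=
    Primrec.nat_mod.comp (Primrec.nat_add.comp (Primrec.fst.comp zs_primrec)
      (Primrec.nat_mul.comp (Primrec.const _) (Primrec.snd.comp zs_primrec))) (Primrec.const _)
  have h2 : Primrec (fun w : Wd2 => (T[((zs w).1 + (p - 1) * (zs w).2) % p]?).getD 0) :=
    Primrec.option_getD.comp (Primrec.list_getElem?.comp (Primrec.const T) h1) (Primrec.const 0)
  have h3 : ∀ w : Wd2, (T[((zs w).1 + (p - 1) * (zs w).2) % p]?).getD 0 =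
      (z (Multiplicative.toAdd (wordVal gens2 w).2)).val := by
    intro w
    rw [zs_spec]
    set a := (zs w).1
    set b := (zs w).2
    have hlt : (a + (p - 1) * b) % p < p := Nat.mod_lt _ hp
    have e1 : (T[(a + (p - 1) * b) % p]?).getD 0 = (z (((a + (p - 1) * b) % p : ℕ) : ℤ)).val := by
      simp only [T]
      rw [List.getElem?_ofFn]
      simp [hlt]
    rw [e1]
    congr 1
    have e2 : z (((a + (p - 1) * b : ℕ) : ℤ)) = z (((a + (p - 1) * b) % p : ℕ) : ℤ) := by
      conv_lhs => rw [← Nat.mod_add_div (a + (p - 1) * b) p]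
      rw [Nat.cast_add, Nat.cast_mul, mul_comm (p : ℤ)]
      exact per_nat hper _ _
    rw [← e2]
    have e3 : ((a + (p - 1) * b : ℕ) : ℤ) = ((a : ℤ) - b) + b * p := by
      have : ((p - 1 : ℕ) : ℤ) = p - 1 := by omega
      push_cast
      rw [this]; ring
    rw [e3, per_nat hper]
  have h4 : Primrec (fun w : Wd2 => (z (Multiplicative.toAdd (wordVal gens2 w).2)).val) := h2.of_eq h3
  have hd : Primrec (fun n : ℕ => (decode n : Option (List (Fin 100 × Bool)))) := Primrec.decode
  have h5 : Primrec₂ (fun (_ : ℕ) (w : Wd2) =>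
      (z (Multiplicative.toAdd (wordVal gens2 w).2)).val) := (h4.comp Primrec.snd).to₂
  refine (Primrec.of_eq (Primrec.option_casesOn hd (Primrec.const 0) h5) ?_).to_comp
  intro n
  simp only [y]
  cases (decode n : Option (List (Fin 100 × Bool))) <;> rfl

/-- The dichotomy. -/
theorem dichotomy {k : ℕ} {X : Set (G2 → Fin k)} (hX : IsSFT X) :
    (∃ y ∈ pull gens2 X, Computable y) ∨ MedvedevLe DNR2 (pull gens2 X) := by
  by_cases h : ∃ x ∈ X, ∀ (g : HG) (n : Multiplicative ℤ), x (g, n) = x (1, n)
  · left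
    obtain ⟨x, hx, hinv⟩ := h
    obtain ⟨z, p, hp, hper, hmem⟩ := exists_periodic hX hx hinv
    exact periodic_computable hp hper hmem
  · right
    refine ⟨ff, ff_primrec.to_comp, ff_mono, ?_⟩
    rintro y ⟨x, hx, hxy⟩
    refine ff_spec x y (fun w => ?_) ?_
    · rw [hxy, Encodable.encodek]
      rfl
    · by_contra hcon
      push Not at hcon
      exact h ⟨x, hx, inv_of_gens x hcon⟩

end Pool.Agent.L5helper51.MD
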