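import Pool.Agent.L5helper51.MD.Sep

set_option autoImplicit false

/-!
The sofic subshift lies below the class of `{0, 1, 2}`-valued diagonally non-computable functions.
-/

namespace Pool.Agent.L5helper51.MD

open Encodable Nat.Partrec
open Pool.Agent.H715R3.Medv (stg pre pre_getElem? pre_length pre_prefix prefix_getElem?
  pow_primrec)
open Pool.Agent.H715R3.Sof (seg MedvedevLe wordVal pull)
open Pool.Agent.Y602.ST (fi fi_le fi_spec fi_min)

lemma vl_primrec : Primrec vl := by
  unfold vl fi
  have h1 : Primrec₂ (fun (n j : ℕ) => decide (¬ n % 2 ^ (j + 1) = 0)) := by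
    have hp1 : Primrec (fun p : ℕ × ℕ => 2 ^ (p.2 + 1)) :=
      pow_primrec.comp ((Primrec.const 2).pair (Primrec.succ.comp Primrec.snd))
    exact (Primrec.eq.comp (Primrec.nat_mod.comp Primrec.fst hp1) (Primrec.const 0)).not.decide
  exact Primrec.list_findIdx Primrec.list_range h1

/-- The absolute value of the last coordinate. -/
def dst (w : Wd2) : ℕ := ((zs w).1 - (zs w).2) + ((zs w).2 - (zs w).1)

lemma dst_primrec : Primrec dst :=
  Primrec.nat_add.comp
    (Primrec.nat_sub.comp (Primrec.fst.comp zs_primrec) (Primrec.snd.comp zs_primrec))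
    (Primrec.nat_sub.comp (Primrec.snd.comp zs_primrec) (Primrec.fst.comp zs_primrec))

lemma dst_spec (w : Wd2) : (Multiplicative.toAdd (wordVal gens2 w).2).natAbs = dst w := by
  rw [zs_spec, dst]; omega

/-- The index needed for the `i`-th value. -/
def nd (i : ℕ) : ℕ := ((decode i : Option Wd2).map (fun w => vl (dst w))).getD 0

lemma nd_primrec : Primrec nd :=
  Primrec.option_getD.comp (Primrec.option_map Primrec.decode
    ((vl_primrec.comp (dst_primrec.comp Primrec.snd)).to₂)) (Primrec.const 0)

/-- The `i`-th value. -/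
def vF (σ : List ℕ) (i : ℕ) : ℕ :=
  ((decode i : Option Wd2).map (fun w =>
    2 * (σ[vl (dst w)]?).getD 0 + vl (dst w) % 2)).getD 0

lemma vF_primrec : Primrec₂ vF := by
  have h1 : Primrec (fun q : (List ℕ × ℕ) × Wd2 => vl (dst q.2)) :=
    vl_primrec.comp (dst_primrec.comp Primrec.snd)
  have h2 : Primrec (fun q : (List ℕ × ℕ) × Wd2 =>
      2 * (q.1.1[vl (dst q.2)]?).getD 0 + vl (dst q.2) % 2) :=
    Primrec.nat_add.comp (Primrec.nat_mul.comp (Primrec.const 2)
      (Primrec.option_getD.comp (Primrec.list_getElem?.comp (Primrec.fst.comp Primrec.fst) h1)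
        (Primrec.const 0))) (Primrec.nat_mod.comp h1 (Primrec.const 2))
  exact Primrec.option_getD.comp (Primrec.option_map (Primrec.decode.comp Primrec.snd) h2.to₂)
    (Primrec.const 0)

/-- How many values are known. -/
def NF (σ : List ℕ) : ℕ := fi (fun i => decide (σ.length ≤ nd i)) σ.length

/-- The functional. -/
def fF (σ : List ℕ) : List ℕ := (List.range (NF σ)).map (vF σ)

lemma fF_primrec : Primrec fF := by
  have h1 : Primrec NF := by
    unfold NF fi
    exact Primrec.list_findIdx (Primrec.list_range.comp Primrec.list_length)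
      (Primrec.nat_le.comp (Primrec.list_length.comp Primrec.fst)
        (nd_primrec.comp Primrec.snd)).decide.to₂
  exact Primrec.list_map (Primrec.list_range.comp h1) vF_primrec

lemma lt_of_lt_NF {σ : List ℕ} {i : ℕ} (h : i < NF σ) : nd i < σ.length := by
  have h1 := fi_min (p := fun i => decide (σ.length ≤ nd i)) h
  rw [decide_eq_false_iff_not] at h1
  omega

lemma le_NF {σ : List ℕ} {n : ℕ} (hn : n ≤ σ.length) (h : ∀ i < n, nd i < σ.length) :
    n ≤ NF σ := by
  by_contra hcon
  push Not at hcon
  have h1 : decide (σ.length ≤ nd (NF σ)) = true :=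
    fi_spec (p := fun i => decide (σ.length ≤ nd i)) (show NF σ < σ.length by omega)
  rw [decide_eq_true_iff] at h1
  have := h _ hcon
  omega

lemma vF_same {σ τ : List ℕ} (h : σ <+: τ) {i : ℕ} (hi : nd i < σ.length) : vF τ i = vF σ i := by
  unfold vF
  unfold nd at hi
  cases hd : (decode i : Option Wd2) with
  | none => rfl
  | some w =>
    rw [hd] at hi
    simp only [Option.map_some, Option.getD_some] at hi ⊢
    rw [List.getElem?_eq_getElem hi, prefix_getElem? h (List.getElem?_eq_getElem hi)]

lemma fF_getElem? {σ : List ℕ} {i : ℕ} (h : i < NF σ) : (fF σ)[i]? = some (vF σ i) := by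
  unfold fF
  rw [List.getElem?_map, List.getElem?_range h]
  rfl

lemma fF_length (σ : List ℕ) : (fF σ).length = NF σ := by simp [fF]

lemma fF_mono (σ τ : List ℕ) (h : σ <+: τ) : fF σ <+: fF τ := by
  have hN : NF σ ≤ NF τ := by
    refine le_NF ((fi_le _ _).trans h.length_le) (fun i hi => ?_)
    exact lt_of_lt_of_le (lt_of_lt_NF hi) h.length_le
  rw [List.prefix_iff_getElem?]
  intro i hi
  have hi' := hi
  rw [fF_length] at hi'
  rw [fF_getElem? (by omega), vF_same h (lt_of_lt_NF hi'), ← List.getElem?_eq_getElem,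
    fF_getElem? hi']

/-- The sofic subshift lies below `DNR₃`. -/
theorem YY_le : MedvedevLe (pull gens2 YY) DNR3 := by
  refine ⟨fF, fF_primrec.to_comp, fF_mono, ?_⟩
  intro y hy
  let u : ℕ → Fin 3 := fun e => ⟨y e, hy.1 e⟩
  have hu : ∀ j (i : Fin 3), psi j i.val → u j ≠ i := by
    intro j i hp he
    rw [psi_iff] at hp
    apply hy.2 j
    have : y j = i.val := congrArg Fin.val he
    rw [this]; exact hp
  refine ⟨fun n => (decode n : Option (List (Fin 100 × Bool))).elim 0
    (fun w => (yy u (wordVal gens2 w)).val), ⟨yy u, yy_mem u hu, fun n => rfl⟩, fun n => ?_⟩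
  obtain ⟨M0, hM0⟩ : ∃ M0, ∀ i < n, nd i < M0 := by
    induction n with
    | zero => exact ⟨0, fun i hi => absurd hi (by omega)⟩
    | succ n ih =>
      obtain ⟨M0, hM0⟩ := ih
      refine ⟨max M0 (nd n + 1), fun i hi => ?_⟩
      rcases Nat.lt_succ_iff_lt_or_eq.1 hi with h | rfl
      · exact lt_of_lt_of_le (hM0 i h) (le_max_left _ _)
      · exact lt_of_lt_of_le (Nat.lt_succ_self _) (le_max_right _ _)
  let M := max M0 n
  refine ⟨M, fun i hi => ?_⟩
  have hndM : ∀ i < n, nd i < (pre y M).length := by
    intro i hi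
    rw [pre_length]
    exact lt_of_lt_of_le (hM0 i hi) (le_max_left _ _)
  have hn : n ≤ NF (pre y M) := le_NF (by rw [pre_length]; exact le_max_right _ _) hndM
  show (fF (pre y M))[i]? = _
  rw [fF_getElem? (by omega)]
  congr 1
  have h2 := hndM i hi
  rw [pre_length] at h2
  unfold nd at h2
  unfold vF
  show _ = (decode i : Option Wd2).elim 0 (fun w => (yy u (wordVal gens2 w)).val)
  cases hd : (decode i : Option Wd2) with
  | none => rfl
  | some w =>
    rw [hd] at h2
    simp only [Option.map_some, Option.getD_some] at h2 ⊢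
    rw [pre_getElem?, if_pos h2]
    show 2 * y (vl (dst w)) + vl (dst w) % 2 = (yy u (wordVal gens2 w)).val
    unfold yy Yo
    rw [dst_spec]
    show _ = 2 * y (vl (dst w)) + (decide (vl (dst w) % 2 = 1)).toNat
    by_cases h : vl (dst w) % 2 = 1
    · simp [h]
    · have : vl (dst w) % 2 = 0 := by omega
      simp [this]

/-- The class is nonempty. -/
lemma DNR3_nonempty : DNR3.Nonempty := by
  classical
  refine ⟨fun e => if psi e 0 then 1 else 0, fun e => ?_, fun e he => ?_⟩
  · show (if psi e 0 then 1 else 0) < 3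
    split_ifs <;> norm_num
  · rw [← psi_iff] at he
    by_cases h : psi e 0
    · simp only [h, if_true] at he
      exact absurd (psi_unique h he) (by norm_num)
    · simp only [h, if_false] at he

lemma YY_nonempty : YY.Nonempty := by
  obtain ⟨y, hy⟩ := DNR3_nonempty
  refine ⟨yy (fun e => ⟨y e, hy.1 e⟩), yy_mem _ ?_⟩
  intro j i hp he
  rw [psi_iff] at hp
  apply hy.2 j
  have : y j = i.val := congrArg Fin.val he
  rw [this]; exact hp

end Pool.Agent.L5helper51.MD
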