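import Pool.Agent.L5helper51.MD.Sys

set_option autoImplicit false

/-!
The group `HG`.
-/

namespace Pool.Agent.L5helper51.MD

open Nat.Partrec
open Pool.Agent.H715R3.Medv (stg inA inB chi disjAB winv winv_primrec mk_winv stg_primrec k3
  k3_ne1 k3_ne2 k3_k3)

/-- Words on 99 letters. -/
abbrev Wd : Type := List (Fin 99 × Bool)

/-- The generator `e_{ij}(l)`. -/
def gi (i j : Fin 3) (l : Fin 11) : Fin 99 := ⟨33 * i.val + 11 * j.val + l.val, by omega⟩

/-- Positive commutator word (for involutions). -/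
def cm (u v : Wd) : Wd := u ++ (v ++ (u ++ v))

/-- Pairs of words for `e_{ij}(y^n l)` and `e_{kj}(y^n l)`. -/
def Fp (l0 : Fin 11) (i j : Fin 3) (n : ℕ) : Wd × Wd :=
  Nat.rec ([(gi i j l0, true)], [(gi (k3 i j) j l0, true)])
    (fun _ p => (cm [(gi i (k3 i j) 2, true)] p.2, cm [(gi (k3 i j) i 2, true)] p.1)) n

lemma Fp_zero (l0 : Fin 11) (i j : Fin 3) :
    Fp l0 i j 0 = ([(gi i j l0, true)], [(gi (k3 i j) j l0, true)]) := rfl

lemma Fp_succ (l0 : Fin 11) (i j : Fin 3) (n : ℕ) :
    Fp l0 i j (n + 1) = (cm [(gi i (k3 i j) 2, true)] (Fp l0 i j n).2,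
      cm [(gi (k3 i j) i 2, true)] (Fp l0 i j n).1) := rfl

/-- The operators attached to the letters `1, x, y, z` and the seven involutions. -/
noncomputable def op (l : Fin 11) : VV →+ VV :=
  if l = 0 then AddMonoidHom.id VV else if l = 1 then opX else if l = 2 then opY else
    if l = 3 then opZ chi else opS (sg ⟨(l.val - 4), by omega⟩)

/-- Row index of a generator. -/
def gI (g : Fin 99) : Fin 3 := ⟨g.val / 33, by omega⟩
/-- Column index. -/
def gJ (g : Fin 99) : Fin 3 := ⟨(g.val / 11) % 3, by omega⟩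
/-- Letter. -/
def gL (g : Fin 99) : Fin 11 := ⟨g.val % 11, by omega⟩

lemma gI_gi (i j : Fin 3) (l : Fin 11) : gI (gi i j l) = i := by
  apply Fin.ext; simp only [gI, gi]; omega
lemma gJ_gi (i j : Fin 3) (l : Fin 11) : gJ (gi i j l) = j := by
  apply Fin.ext; simp only [gJ, gi]; omega
lemma gL_gi (i j : Fin 3) (l : Fin 11) : gL (gi i j l) = l := by
  apply Fin.ext; simp only [gL, gi]; omega

/-- The image of the generators. -/
noncomputable def rho (g : Fin 99) : Equiv.Perm (Fin 3 → VV) := pv (gI g) (gJ g) (op (gL g))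

/-- The image of a word. -/
noncomputable def rw' (w : Wd) : Equiv.Perm (Fin 3 → VV) :=
  FreeGroup.lift rho (FreeGroup.mk w)

lemma rw_append (u v : Wd) : rw' (u ++ v) = rw' u * rw' v := by
  simp only [rw', ← FreeGroup.mul_mk, map_mul]

lemma rw_nil : rw' [] = 1 := by
  simp [rw', ← FreeGroup.one_eq_mk]

lemma rw_single (g : Fin 99) : rw' [(g, true)] = rho g := by
  simp [rw']

lemma rw_single_inv (g : Fin 99) : rw' [(g, false)] = (rho g)⁻¹ := by
  simp [rw']

lemma rw_winv (w : Wd) : rw' (winv w) = (rw' w)⁻¹ := by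
  rw [rw', mk_winv, map_inv, rw']

lemma rho_gi (i j : Fin 3) (l : Fin 11) : rho (gi i j l) = pv i j (op l) := by
  simp only [rho, gI_gi, gJ_gi, gL_gi]

lemma rw_cm (u v : Wd) :
    rw' (cm u v) = rw' u * (rw' v * (rw' u * rw' v)) := by
  simp only [cm, rw_append]

lemma rw_Fp (l0 : Fin 11) {i j : Fin 3} (h : i ≠ j) (n : ℕ) :
    rw' (Fp l0 i j n).1 = pv i j (opYp n (op l0)) ∧
    rw' (Fp l0 i j n).2 = pv (k3 i j) j (opYp n (op l0)) := by
  induction n with
  | zero =>
    rw [Fp_zero]
    exact ⟨by rw [rw_single, rho_gi]; rfl, by rw [rw_single, rho_gi]; rfl⟩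
  | succ n ih =>
    rw [Fp_succ]
    have hop : op 2 = opY := by
      have h0 : (2 : Fin 11) ≠ 0 := by decide
      have h1 : (2 : Fin 11) ≠ 1 := by decide
      simp only [op, h0, h1, if_false, if_true]
    constructor
    · rw [rw_cm, rw_single, rho_gi, ih.2, hop]
      exact pv_comm (k3_ne1 h) (k3_ne2 h) h opY _
    · rw [rw_cm, rw_single, rho_gi, ih.1, hop]
      exact pv_comm (k3_ne1 h).symm h (k3_ne2 h) opY _

/-- The words `U g n`. -/
def U (g : Fin 99) (n : ℕ) : Wd :=
  if gI g = gJ g then [] else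
    cm [(gi (gI g) (k3 (gI g) (gJ g)) (gL g), true)]
      (cm [(gi (k3 (gI g) (gJ g)) (gI g) 1, true)] (Fp 3 (gI g) (gJ g) n).1)

lemma rw_U (g : Fin 99) (n : ℕ) :
    rw' (U g n) = if chi n then rho g else 1 := by
  by_cases h : gI g = gJ g
  · have : rho g = 1 := by rw [rho, h, pv_self]
    simp [U, h, rw_nil, this]
  · simp only [U, h, if_false]
    have hop1 : op 1 = opX := by
      have h0 : (1 : Fin 11) ≠ 0 := by decide
      simp only [op, h0, if_false, if_true]
    have hop3 : op 3 = opZ chi := by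
      have h0 : (3 : Fin 11) ≠ 0 := by decide
      have h1 : (3 : Fin 11) ≠ 1 := by decide
      have h2 : (3 : Fin 11) ≠ 2 := by decide
      simp only [op, h0, h1, h2, if_false, if_true]
    rw [rw_cm, rw_cm, rw_single, rw_single, rho_gi, rho_gi, (rw_Fp 3 h n).1, hop1, hop3]
    rw [pv_comm (k3_ne1 h).symm h (k3_ne2 h), xyz]
    rw [pv_comm (k3_ne1 h) (k3_ne2 h) h]
    by_cases hn : chi n
    · simp only [hn, if_true]
      rw [AddMonoidHom.comp_id]
      rfl
    · simp only [hn]
      have : (op (gL g)).comp (0 : VV →+ VV) = 0 := by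
        ext f l; simp
      simp only [Bool.false_eq_true, if_false, this, pv_zero]

/-! ### The words of the involutions -/

/-- The word of `diag(l, l, 1)`. -/
def dl (l : Fin 7) : Wd :=
  [(gi 0 1 ⟨l.val + 4, by omega⟩, true), (gi 1 0 ⟨l.val + 4, by omega⟩, true),
    (gi 0 1 ⟨l.val + 4, by omega⟩, true), (gi 0 1 0, true), (gi 1 0 0, true), (gi 0 1 0, true)]

lemma op_four (l : Fin 7) : op ⟨l.val + 4, by omega⟩ = opS (sg l) := by
  have h : ∀ l : Fin 7, ((⟨l.val + 4, by omega⟩ : Fin 11) ≠ 0) ∧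
    ((⟨l.val + 4, by omega⟩ : Fin 11) ≠ 1) ∧ ((⟨l.val + 4, by omega⟩ : Fin 11) ≠ 2) ∧
    ((⟨l.val + 4, by omega⟩ : Fin 11) ≠ 3) := by decide
  obtain ⟨h0, h1, h2, h3⟩ := h l
  unfold op
  rw [if_neg h0, if_neg h1, if_neg h2, if_neg h3]
  simp

lemma rw_dl (l : Fin 7) : rw' (dl l) = dg (sg l) := by
  have e : dl l = [(gi 0 1 ⟨l.val + 4, by omega⟩, true)] ++
      ([(gi 1 0 ⟨l.val + 4, by omega⟩, true)] ++ ([(gi 0 1 ⟨l.val + 4, by omega⟩, true)] ++
      ([(gi 0 1 0, true)] ++ ([(gi 1 0 0, true)] ++ [(gi 0 1 0, true)])))) := rfl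
  have h0 : op 0 = AddMonoidHom.id VV := by simp [op]
  rw [e, rw_append, rw_append, rw_append, rw_append, rw_append]
  simp only [rw_single, rho_gi, op_four, h0]
  exact six (sg l) (sg_sg l)

/-- The word of the shift. -/
def tw : Wd := dl 0 ++ dl 1

lemma rw_tw : rw' tw = dg tt := by
  rw [tw, rw_append, rw_dl, rw_dl, dg_mul]
  rfl

/-- Powers of the shift. -/
def tp (j : ℕ) : Wd := Nat.rec [] (fun _ w => tw ++ w) j

lemma tp_succ (j : ℕ) : tp (j + 1) = tw ++ tp j := rfl

lemma rw_tp (j : ℕ) : rw' (tp j) = dg (tt ^ j) := by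
  induction j with
  | zero => rw [pow_zero, dg_one]; exact rw_nil
  | succ j ih => rw [tp_succ, rw_append, ih, rw_tw, dg_mul, pow_succ]

/-- The word of `v` at distance `j`. -/
def vw (j : ℕ) : Wd := tp j ++ (dl 3 ++ winv (tp j))

lemma rw_vw (j : ℕ) : rw' (vw j) = dg (vj j) := by
  rw [vw, rw_append, rw_append, rw_winv, rw_tp, rw_dl, dg_inv, dg_mul, dg_mul, vj]
  rw [mul_assoc]

/-- The word of the `i`-th of the last three involutions. -/
def ww (i : Fin 3) : Wd := dl ⟨4 + i.val, by omega⟩

/-- The commutator words. -/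
def kw (i : Fin 3) (j : ℕ) : Wd := (ww i ++ vw j) ++ winv (vw j ++ ww i)

lemma rw_kw (i : Fin 3) {j : ℕ} (h : psi j i.val) : rw' (kw i j) = 1 := by
  rw [kw, rw_append, rw_winv, rw_append, rw_append, rw_vw, ww, rw_dl, dg_mul, dg_mul]
  rw [mul_inv_eq_one, comm_W i h]

/-! ### The relators -/

/-- Relators for generator `g`. -/
def relU (g : Fin 99) (q : ℕ) : Wd :=
  if stg q.unpair.1 q.unpair.2 = some 0 then U g q.unpair.1
  else if stg q.unpair.1 q.unpair.2 = some 1 then U g q.unpair.1 ++ [(g, false)] else []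

/-- Relators for the commutations. -/
def relK (i : Fin 3) (q : ℕ) : Wd :=
  if stg q.unpair.1 q.unpair.2 = some i.val then kw i q.unpair.1 else []

/-- The computable list of relators. -/
def rel (q : ℕ) : Wd :=
  ((List.ofFn (fun g : Fin 99 => relU g q.unpair.2))[q.unpair.1]?).getD
    (((List.ofFn (fun i : Fin 3 => relK i q.unpair.2))[q.unpair.1 - 99]?).getD [])

lemma cm_primrec {α : Type*} [Primcodable α] {f g : α → Wd} (hf : Primrec f) (hg : Primrec g) :
    Primrec (fun a => cm (f a) (g a)) :=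
  Primrec.list_append.comp hf (Primrec.list_append.comp hg (Primrec.list_append.comp hf hg))

lemma Fp_primrec (l0 : Fin 11) (i j : Fin 3) : Primrec (Fp l0 i j) := by
  have : Primrec₂ (fun (_ : ℕ) (p : Wd × Wd) =>
      (cm [(gi i (k3 i j) 2, true)] p.2, cm [(gi (k3 i j) i 2, true)] p.1)) := by
    refine Primrec.pair ?_ ?_
    · exact cm_primrec (Primrec.const _) (Primrec.snd.comp Primrec.snd)
    · exact cm_primrec (Primrec.const _) (Primrec.fst.comp Primrec.snd)
  exact Primrec.nat_rec₁ _ this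

lemma U_primrec (g : Fin 99) : Primrec (U g) := by
  by_cases h : gI g = gJ g
  · have : U g = fun _ => [] := by funext n; simp [U, h]
    rw [this]; exact Primrec.const _
  · have : U g = fun n => cm [(gi (gI g) (k3 (gI g) (gJ g)) (gL g), true)]
      (cm [(gi (k3 (gI g) (gJ g)) (gI g) 1, true)] (Fp 3 (gI g) (gJ g) n).1) := by
      funext n; simp [U, h]
    rw [this]
    exact cm_primrec (Primrec.const _) (cm_primrec (Primrec.const _)
      (Primrec.fst.comp (Fp_primrec _ _ _)))

lemma tp_primrec : Primrec tp := by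
  have : Primrec₂ (fun (_ : ℕ) (w : Wd) => tw ++ w) :=
    Primrec.list_append.comp (Primrec.const _) Primrec.snd
  exact Primrec.nat_rec₁ _ this

lemma vw_primrec : Primrec vw :=
  Primrec.list_append.comp tp_primrec (Primrec.list_append.comp (Primrec.const _)
    (winv_primrec.comp tp_primrec))

lemma kw_primrec (i : Fin 3) : Primrec (kw i) :=
  Primrec.list_append.comp (Primrec.list_append.comp (Primrec.const _) vw_primrec)
    (winv_primrec.comp (Primrec.list_append.comp vw_primrec (Primrec.const _)))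

lemma relU_primrec (g : Fin 99) : Primrec (relU g) := by
  have h1 : Primrec (fun q : ℕ => q.unpair.1) := Primrec.fst.comp Primrec.unpair
  have h2 : Primrec (fun q : ℕ => q.unpair.2) := Primrec.snd.comp Primrec.unpair
  have h3 : Primrec (fun q : ℕ => stg q.unpair.1 q.unpair.2) := stg_primrec.comp h1 h2
  refine Primrec.ite (Primrec.eq.comp h3 (Primrec.const _)) ((U_primrec g).comp h1) ?_
  refine Primrec.ite (Primrec.eq.comp h3 (Primrec.const _)) ?_ (Primrec.const _)
  exact Primrec.list_append.comp ((U_primrec g).comp h1) (Primrec.const _)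

lemma relK_primrec (i : Fin 3) : Primrec (relK i) := by
  have h1 : Primrec (fun q : ℕ => q.unpair.1) := Primrec.fst.comp Primrec.unpair
  have h2 : Primrec (fun q : ℕ => q.unpair.2) := Primrec.snd.comp Primrec.unpair
  have h3 : Primrec (fun q : ℕ => stg q.unpair.1 q.unpair.2) := stg_primrec.comp h1 h2
  exact Primrec.ite (Primrec.eq.comp h3 (Primrec.const _)) ((kw_primrec i).comp h1)
    (Primrec.const _)

lemma rel_primrec : Primrec rel := by
  have h1 : Primrec (fun q : ℕ => q.unpair.1) := Primrec.fst.comp Primrec.unpair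
  have h2 : Primrec (fun q : ℕ => q.unpair.2) := Primrec.snd.comp Primrec.unpair
  refine Primrec.option_getD.comp ?_ (Primrec.option_getD.comp ?_ (Primrec.const _))
  · exact Primrec.list_getElem?.comp (Primrec.list_ofFn (fun g => (relU_primrec g).comp h2)) h1
  · exact Primrec.list_getElem?.comp (Primrec.list_ofFn (fun g => (relK_primrec g).comp h2))
      (Primrec.nat_sub.comp h1 (Primrec.const 99))

/-- The set of relators in the free group. -/
def rels : Set (FreeGroup (Fin 99)) := Set.range (fun n => FreeGroup.mk (rel n))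

/-- The group. -/
abbrev HG : Type := PresentedGroup rels

/-- Its generators. -/
def gens (g : Fin 99) : HG := PresentedGroup.of g

/-- Evaluation of words. -/
def ev (w : Wd) : HG := (w.map fun p => cond p.2 (gens p.1) (gens p.1)⁻¹).prod

lemma ev_eq (w : Wd) : ev w = (QuotientGroup.mk (FreeGroup.mk w) : HG) := by
  have h : ev w = FreeGroup.lift gens (FreeGroup.mk w) := by
    rw [FreeGroup.lift_mk]; rfl
  rw [h]
  have : (FreeGroup.lift gens : FreeGroup (Fin 99) →* HG) = PresentedGroup.mk rels := by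
    ext g
    simp [gens, PresentedGroup.of]
  rw [this]
  rfl

lemma ev_append (u v : Wd) : ev (u ++ v) = ev u * ev v := by
  simp [ev]

lemma ev_single (g : Fin 99) : ev [(g, true)] = gens g := by simp [ev]

lemma ev_winv (w : Wd) : ev (winv w) = (ev w)⁻¹ := by
  rw [ev_eq, ev_eq, mk_winv]
  rfl

lemma ev_rel (n : ℕ) : ev (rel n) = 1 := by
  rw [ev_eq]
  exact (QuotientGroup.eq_one_iff _).2 (Subgroup.subset_normalClosure ⟨n, rfl⟩)

theorem gens_closure : Subgroup.closure (Set.range gens) = ⊤ :=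
  PresentedGroup.closure_range_of rels

lemma rel_U (g : Fin 99) (n s : ℕ) :
    rel (Nat.pair g.val (Nat.pair n s)) = relU g (Nat.pair n s) := by
  simp only [rel, Nat.unpair_pair]
  rw [List.getElem?_ofFn]
  simp

lemma rel_K (i : Fin 3) (n s : ℕ) :
    rel (Nat.pair (99 + i.val) (Nat.pair n s)) = relK i (Nat.pair n s) := by
  simp only [rel, Nat.unpair_pair]
  rw [List.getElem?_ofFn, List.getElem?_ofFn]
  simp

lemma ev_U_A {n : ℕ} (h : inA n) (g : Fin 99) : ev (U g n) = 1 := by
  obtain ⟨s, hs⟩ := h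
  have := ev_rel (Nat.pair g.val (Nat.pair n s))
  rw [rel_U] at this
  simp only [relU, Nat.unpair_pair, hs, if_true] at this
  exact this

lemma ev_U_B {n : ℕ} (h : inB n) (g : Fin 99) : ev (U g n) = gens g := by
  obtain ⟨s, hs⟩ := h
  have := ev_rel (Nat.pair g.val (Nat.pair n s))
  rw [rel_U] at this
  simp only [relU, Nat.unpair_pair, hs] at this
  simp only [Option.some.injEq, one_ne_zero, if_false, if_true, ev_append] at this
  have e : ev [(g, false)] = (gens g)⁻¹ := by simp [ev]
  rw [e] at this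
  exact mul_inv_eq_one.1 this

/-- The commutation relations hold in the group. -/
theorem ev_K {i : Fin 3} {j : ℕ} (h : psi j i.val) :
    ev (ww i) * ev (vw j) = ev (vw j) * ev (ww i) := by
  obtain ⟨s, hs⟩ := h
  have := ev_rel (Nat.pair (99 + i.val) (Nat.pair j s))
  rw [rel_K] at this
  simp only [relK, Nat.unpair_pair, hs, if_true] at this
  rw [kw, ev_append, ev_winv, ev_append, ev_append] at this
  exact mul_inv_eq_one.1 this

lemma rw_rel (q : ℕ) : rw' (rel q) = 1 := by
  classical
  simp only [rel]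
  rw [List.getElem?_ofFn, List.getElem?_ofFn]
  by_cases h : q.unpair.1 < 99
  · simp only [h, dite_true, Option.getD_some, relU]
    set n := q.unpair.2.unpair.1
    set s := q.unpair.2.unpair.2
    by_cases h0 : stg n s = some 0
    · have hB : chi n = false := by
        simp only [chi, decide_eq_false_iff_not]
        exact fun hb => disjAB ⟨s, h0⟩ hb
      simp [h0, rw_U, hB]
    · by_cases h1 : stg n s = some 1
      · have hB : chi n = true := by
          simp only [chi, decide_eq_true_eq]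
          exact ⟨s, h1⟩
        simp [h1, rw_append, rw_U, hB, rw_single_inv]
      · simp [h0, h1, rw_nil]
  · simp only [h, dite_false, Option.getD_none]
    by_cases h3 : q.unpair.1 - 99 < 3
    · simp only [h3, dite_true, Option.getD_some, relK]
      set i : Fin 3 := ⟨q.unpair.1 - 99, h3⟩
      by_cases hs : stg q.unpair.2.unpair.1 q.unpair.2.unpair.2 = some (q.unpair.1 - 99)
      · rw [if_pos hs]
        exact rw_kw i ⟨_, hs⟩
      · rw [if_neg hs]
        exact rw_nil
    · simp only [h3, dite_false, Option.getD_none]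
      exact rw_nil

/-- The representation. -/
noncomputable def repG : HG →* Equiv.Perm (Fin 3 → VV) :=
  PresentedGroup.toGroup (f := rho) (by
    rintro _ ⟨q, rfl⟩
    exact rw_rel q)

lemma repG_ev (w : Wd) : repG (ev w) = rw' w := by
  rw [ev_eq]
  rfl

end Pool.Agent.L5helper51.MD
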