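import Pool.Agent.L5helper51.MD.Point

set_option autoImplicit false

/-!
The sofic subshift has no computable point.
-/

namespace Pool.Agent.L5helper51.MD

open Encodable Nat.Partrec
open Pool.Agent.H715R3.Medv (stg pow_primrec)
open Pool.Agent.H715R3.Sof (wordVal pull markers wordVal_append)

/-- The `{0, 1, 2}`-valued diagonally non-computable functions. -/
def DNR3 : Set (ℕ → ℕ) :=
  {u | (∀ e, u e < 3) ∧ ∀ e, u e ∉ Code.eval (Denumerable.ofNat Code e) e}

lemma psi_iff (e i : ℕ) : psi e i ↔ i ∈ Code.eval (Denumerable.ofNat Code e) e := by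
  constructor
  · rintro ⟨s, hs⟩
    exact Code.evaln_sound (Option.mem_def.2 hs)
  · intro h
    obtain ⟨t, ht⟩ := Code.evaln_complete.1 h
    exact ⟨t, Option.mem_def.1 ht⟩

lemma dnr3_not_computable {u : ℕ → ℕ} (hu : u ∈ DNR3) : ¬ Computable u := by
  intro hc
  obtain ⟨c, hcc⟩ := Code.exists_code.1 (Partrec.nat_iff.1 hc.partrec)
  refine hu.2 (encode c) ?_
  rw [Denumerable.ofNat_encode, hcc]
  simp

/-- Powers of the central letter. -/
def zn (n : ℕ) : Wd2 := Nat.rec [] (fun _ w => (zt, true) :: w) n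

lemma zn_primrec : Primrec zn :=
  Primrec.nat_rec₁ _ (Primrec.list_cons.comp (Primrec.const _) Primrec.snd)

lemma wordVal_zn (n : ℕ) : wordVal gens2 (zn n) = (1, Multiplicative.ofAdd (n : ℤ)) := by
  induction n with
  | zero => rfl
  | succ n ih =>
    have h : zn (n + 1) = [(zt, true)] ++ zn n := rfl
    rw [h, wordVal_append, ih]
    simp only [wordVal, List.map_cons, List.map_nil, List.prod_cons, List.prod_nil, cond_true,
      gens2_zt, mul_one, Prod.mk_mul_mk]
    rw [← ofAdd_add]
    congr 2
    push_cast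
    ring

/-- The centres. -/
def cc (s : ℕ → ℕ) (j : ℕ) : ℕ :=
  Nat.rec 0 (fun j c => if s (c + 2 ^ j) % 2 = j % 2 ∧ s (c + 3 * 2 ^ j) % 2 = j % 2 then c
    else c + 2 ^ j) j

lemma cc_succ (s : ℕ → ℕ) (j : ℕ) : cc s (j + 1) =
    if s (cc s j + 2 ^ j) % 2 = j % 2 ∧ s (cc s j + 3 * 2 ^ j) % 2 = j % 2 then cc s j
    else cc s j + 2 ^ j := rfl

lemma cc_computable {s : ℕ → ℕ} (hs : Computable s) : Computable (cc s) := by
  have h2 : Computable (fun p : ℕ × ℕ => 2 ^ p.1) :=
    (pow_primrec.comp ((Primrec.const 2).pair Primrec.fst)).to_comp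
  have hadd : Computable₂ (fun a b : ℕ => a + b) := Primrec.nat_add.to_comp
  have hmul : Computable₂ (fun a b : ℕ => a * b) := Primrec.nat_mul.to_comp
  have hmod : Computable₂ (fun a b : ℕ => a % b) := Primrec.nat_mod.to_comp
  have a1 : Computable (fun p : ℕ × ℕ => p.2 + 2 ^ p.1) := hadd.comp Computable.snd h2
  have a3 : Computable (fun p : ℕ × ℕ => p.2 + 3 * 2 ^ p.1) :=
    hadd.comp Computable.snd (hmul.comp (Computable.const 3) h2)
  have heq : Computable₂ (fun a b : ℕ => decide (a = b)) := (Primrec.eq.decide : Primrec₂ _).to_comp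
  have m1 : Computable (fun p : ℕ × ℕ => decide (s (p.2 + 2 ^ p.1) % 2 = p.1 % 2)) :=
    heq.comp (hmod.comp (hs.comp a1) (Computable.const 2))
      (hmod.comp Computable.fst (Computable.const 2))
  have m3 : Computable (fun p : ℕ × ℕ => decide (s (p.2 + 3 * 2 ^ p.1) % 2 = p.1 % 2)) :=
    heq.comp (hmod.comp (hs.comp a3) (Computable.const 2))
      (hmod.comp Computable.fst (Computable.const 2))
  have mm : Computable (fun p : ℕ × ℕ => (decide (s (p.2 + 2 ^ p.1) % 2 = p.1 % 2) &&
      decide (s (p.2 + 3 * 2 ^ p.1) % 2 = p.1 % 2))) := Primrec.and.to_comp.comp m1 m3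
  have hstep : Computable (fun p : ℕ × ℕ =>
      (bif (decide (s (p.2 + 2 ^ p.1) % 2 = p.1 % 2) &&
        decide (s (p.2 + 3 * 2 ^ p.1) % 2 = p.1 % 2)) then p.2 else p.2 + 2 ^ p.1)) :=
    Computable.cond mm Computable.snd a1
  have hrec : Computable (fun j : ℕ => (Nat.rec 0 (fun j c =>
      (bif (decide (s (c + 2 ^ j) % 2 = j % 2) &&
        decide (s (c + 3 * 2 ^ j) % 2 = j % 2)) then c else c + 2 ^ j)) j : ℕ)) := by
    have h3 : Computable₂ (fun (_ : ℕ) (p : ℕ × ℕ) =>
        (bif (decide (s (p.2 + 2 ^ p.1) % 2 = p.1 % 2) &&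
        decide (s (p.2 + 3 * 2 ^ p.1) % 2 = p.1 % 2)) then p.2 else p.2 + 2 ^ p.1)) :=
      hstep.comp Computable.snd
    exact Computable.nat_rec Computable.id (Computable.const 0) h3
  refine Computable.of_eq hrec ?_
  have hbif : ∀ j c : ℕ, (bif (decide (s (c + 2 ^ j) % 2 = j % 2) &&
        decide (s (c + 3 * 2 ^ j) % 2 = j % 2)) then c else c + 2 ^ j) =
      (if s (c + 2 ^ j) % 2 = j % 2 ∧ s (c + 3 * 2 ^ j) % 2 = j % 2 then c
        else c + 2 ^ j) := by
    intro j c
    by_cases h : s (c + 2 ^ j) % 2 = j % 2 ∧ s (c + 3 * 2 ^ j) % 2 = j % 2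
    · rw [if_pos h]
      simp [h.1, h.2]
    · rw [if_neg h]
      have : (decide (s (c + 2 ^ j) % 2 = j % 2) &&
        decide (s (c + 3 * 2 ^ j) % 2 = j % 2)) = false := by
        rw [Bool.eq_false_iff, ne_eq, Bool.and_eq_true, decide_eq_true_iff, decide_eq_true_iff]
        exact h
      rw [this]
      rfl
  intro j
  unfold cc
  simp only [hbif]

/-- The labels can be read off. -/
theorem read_off {M W : ℕ → ℤ → Bool} {u : ℕ → Fin 3} {s : ℕ → ℕ} (h0 : ∀ n, M 0 n = true)
    (h1 : ∀ j n, M (j + 1) n = (M j n && !(W j n)))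
    (h2 : ∀ j n, W j (n + 1) = xor (W j n) (M j (n + 1)))
    (hs : ∀ j (n : ℕ), M j n = true → W j n = true → s n = 2 * (u j).val + j % 2) (j : ℕ) :
    s (cc s (j + 1) + 2 ^ j) / 2 = (u j).val := by
  have hlev : ∀ j (n : ℕ), M j n = true → ¬ M (j + 1) n = true →
      s n = 2 * (u j).val + j % 2 := by
    intro j n ha hb
    refine hs j n ha ?_
    rw [h1, ha, Bool.true_and] at hb
    simpa using hb
  have key : ∀ j, ∀ n, M j n = true ↔ (2 ^ j : ℤ) ∣ n - cc s j := by
    intro j
    induction j with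
    | zero => intro n; simp [h0]
    | succ j ih =>
      obtain ⟨c', hc'⟩ := markers h0 h1 h2 (j + 1)
      obtain ⟨c'', hc''⟩ := markers h0 h1 h2 (j + 2)
      have hd : (2 : ℤ) ^ j ≠ 0 := by positivity
      have hd1 : (2 : ℤ) ^ (j + 1) ≠ 0 := by positivity
      have hc1 : M (j + 1) c' = true := (hc' c').2 (by simp)
      have hc2 : M j c' = true := by
        have := h1 j c'
        rw [hc1] at this
        exact (Bool.and_eq_true _ _ ▸ this.symm : _ ∧ _).1
      obtain ⟨m, hm⟩ := (ih c').1 hc2
      set c := cc s j with hcdef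
      rcases Int.even_or_odd' m with ⟨r, hr | hr⟩
      · -- even case
        have hM : ∀ n, M (j + 1) n = true ↔ (2 ^ (j + 1) : ℤ) ∣ n - c := by
          intro n
          rw [hc' n]
          have e : n - (c : ℤ) = (n - c') + 2 ^ (j + 1) * r := by
            have : c' = c + 2 ^ j * (2 * r) := by rw [← hr]; linear_combination hm
            rw [this, pow_succ]; ring
          rw [e]
          exact ⟨fun h => dvd_add h (dvd_mul_right _ _),
            fun h => (dvd_add_left (dvd_mul_right _ _)).1 h⟩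
        have hcond : s (c + 2 ^ j) % 2 = j % 2 ∧ s (c + 3 * 2 ^ j) % 2 = j % 2 := by
          constructor
          · have a1 : M j ((c + 2 ^ j : ℕ) : ℤ) = true := by
              rw [ih]; push_cast; exact ⟨1, by ring⟩
            have a2 : ¬ M (j + 1) ((c + 2 ^ j : ℕ) : ℤ) = true := by
              rw [hM]
              push_cast
              rintro ⟨k, hk⟩
              have : (2 : ℤ) ^ j * 1 = 2 ^ j * (2 * k) := by
                rw [pow_succ] at hk; linear_combination hk
              have := mul_left_cancel₀ hd this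
              omega
            rw [hlev j _ a1 a2]; omega
          · have a1 : M j ((c + 3 * 2 ^ j : ℕ) : ℤ) = true := by
              rw [ih]; push_cast; exact ⟨3, by ring⟩
            have a2 : ¬ M (j + 1) ((c + 3 * 2 ^ j : ℕ) : ℤ) = true := by
              rw [hM]
              push_cast
              rintro ⟨k, hk⟩
              have : (2 : ℤ) ^ j * 3 = 2 ^ j * (2 * k) := by
                rw [pow_succ] at hk; linear_combination hk
              have := mul_left_cancel₀ hd this
              omega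
            rw [hlev j _ a1 a2]; omega
        intro n
        rw [cc_succ, ← hcdef, if_pos hcond]
        exact hM n
      · -- odd case
        have hM : ∀ n, M (j + 1) n = true ↔ (2 ^ (j + 1) : ℤ) ∣ n - (c + 2 ^ j) := by
          intro n
          rw [hc' n]
          have e : n - ((c : ℤ) + 2 ^ j) = (n - c') + 2 ^ (j + 1) * r := by
            have : c' = c + 2 ^ j * (2 * r + 1) := by rw [← hr]; linear_combination hm
            rw [this, pow_succ]; ring
          rw [e]
          exact ⟨fun h => dvd_add h (dvd_mul_right _ _),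
            fun h => (dvd_add_left (dvd_mul_right _ _)).1 h⟩
        have b1 : M (j + 1) ((c + 2 ^ j : ℕ) : ℤ) = true := by
          rw [hM]; push_cast; simp
        have b3 : M (j + 1) ((c + 3 * 2 ^ j : ℕ) : ℤ) = true := by
          rw [hM]; push_cast; exact ⟨1, by rw [pow_succ]; ring⟩
        have hcond : ¬ (s (c + 2 ^ j) % 2 = j % 2 ∧ s (c + 3 * 2 ^ j) % 2 = j % 2) := by
          rintro ⟨d1, d3⟩
          by_cases e1 : M (j + 2) ((c + 2 ^ j : ℕ) : ℤ) = true
          · by_cases e3 : M (j + 2) ((c + 3 * 2 ^ j : ℕ) : ℤ) = true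
            · rw [hc''] at e1 e3
              have e4 := dvd_sub e3 e1
              push_cast at e4
              have e5 : (c : ℤ) + 3 * 2 ^ j - c'' - (c + 2 ^ j - c'') = 2 ^ (j + 1) * 1 := by
                rw [pow_succ]; ring
              rw [e5, show j + 2 = j + 1 + 1 from rfl, pow_succ (2 : ℤ) (j + 1)] at e4
              have e6 := (mul_dvd_mul_iff_left hd1).1 e4
              omega
            · rw [hlev (j + 1) _ b3 e3] at d3
              omega
          · rw [hlev (j + 1) _ b1 e1] at d1
            omega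
        intro n
        rw [cc_succ, ← hcdef, if_neg hcond]
        push_cast
        exact hM n
  have a1 : M j ((cc s (j + 1) + 2 ^ j : ℕ) : ℤ) = true := by
    have hcM : M (j + 1) (cc s (j + 1) : ℤ) = true := (key (j + 1) _).2 (by simp)
    have hcM' : M j (cc s (j + 1) : ℤ) = true := by
      have := h1 j (cc s (j + 1) : ℤ)
      rw [hcM] at this
      exact (Bool.and_eq_true _ _ ▸ this.symm : _ ∧ _).1
    rw [key] at hcM' ⊢
    push_cast
    have e : (cc s (j + 1) : ℤ) + 2 ^ j - cc s j = (cc s (j + 1) - cc s j) + 2 ^ j := by ring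
    rw [e]
    exact dvd_add hcM' (dvd_refl _)
  have a2 : ¬ M (j + 1) ((cc s (j + 1) + 2 ^ j : ℕ) : ℤ) = true := by
    rw [key]
    push_cast
    rintro ⟨k, hk⟩
    have hd : (2 : ℤ) ^ j ≠ 0 := by positivity
    have : (2 : ℤ) ^ j * 1 = 2 ^ j * (2 * k) := by
      rw [pow_succ] at hk; linear_combination hk
    have := mul_left_cancel₀ hd this
    omega
  rw [hlev j _ a1 a2]
  omega

/-- The sofic subshift has no computable point. -/
theorem YY_no_computable {y : ℕ → ℕ} (hy : y ∈ pull gens2 YY) : ¬ Computable y := by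
  intro hc
  obtain ⟨x, hx, hxy⟩ := hy
  obtain ⟨M, W, u, h0, h1, h2, h3, h4, -⟩ := YY_struct hx
  let s : ℕ → ℕ := fun n => y (encode (zn n))
  have hs : Computable s := hc.comp (Primrec.encode.comp zn_primrec).to_comp
  have hsx : ∀ n : ℕ, s n = (x (1, Multiplicative.ofAdd (n : ℤ))).val := by
    intro n
    show y (encode (zn n)) = _
    rw [hxy, Encodable.encodek]
    show (x (wordVal gens2 (zn n))).val = _
    rw [wordVal_zn]
  have hs' : ∀ j (n : ℕ), M j n = true → W j n = true → s n = 2 * (u j).val + j % 2 := by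
    intro j n a b
    rw [hsx, h3 j n a b 1]
    show 2 * (u j).val + (decide (j % 2 = 1)).toNat = _
    by_cases h : j % 2 = 1
    · simp [h]
    · have : j % 2 = 0 := by omega
      simp [this]
  have hro := read_off h0 h1 h2 hs'
  have hcomp : Computable (fun j => s (cc s (j + 1) + 2 ^ j) / 2) := by
    have a1 : Computable (fun j : ℕ => cc s (j + 1)) := (cc_computable hs).comp Computable.succ
    have a2 : Computable (fun j : ℕ => 2 ^ j) :=
      (pow_primrec.comp ((Primrec.const 2).pair Primrec.id)).to_comp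
    have a3 : Computable (fun j : ℕ => cc s (j + 1) + 2 ^ j) :=
      (Primrec.nat_add.to_comp : Computable₂ _).comp a1 a2
    exact (Primrec.nat_div.to_comp : Computable₂ _).comp (hs.comp a3) (Computable.const 2)
  have hmem : (fun j => s (cc s (j + 1) + 2 ^ j) / 2) ∈ DNR3 := by
    refine ⟨fun e => ?_, fun e he => ?_⟩
    · show s (cc s (e + 1) + 2 ^ e) / 2 < 3
      rw [hro]; exact (u e).2
    · rw [← psi_iff] at he
      simp only [hro] at he
      exact h4 e (u e) he rfl
  exact dnr3_not_computable hmem hcomp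

end Pool.Agent.L5helper51.MD
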