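import Pool.Agent.H715R3.MedvC

set_option autoImplicit false

/-!
Operators on functions on `Om × List ℕ`, and elementary transvections.
-/

namespace Pool.Agent.L5helper51.MD

open Pool.Agent.H715R3.Medv (stg inA inB chi)

/-- The set on which the seven involutions act: line index, copy, side line, position. -/
abbrev Om : Type := ℕ × Bool × Option ℤ × ℤ

/-- The space the operators act on. -/
abbrev VV : Type := Om → List ℕ → ZMod 2

lemma v_add_self (a : VV) : a + a = 0 := by
  funext o l
  exact CharTwo.add_self_eq_zero (a o l)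

/-- `(X f)(l) = f (0 :: l)`. -/
def opX : VV →+ VV where
  toFun f := fun o l => f o (0 :: l)
  map_zero' := rfl
  map_add' _ _ := rfl

/-- `(Y f)(k :: l) = f ((k+1) :: l)`, `(Y f)([]) = 0`. -/
def opY : VV →+ VV where
  toFun f := fun o l => match l with
    | [] => 0
    | k :: l => f o ((k + 1) :: l)
  map_zero' := by funext o l; cases l <;> rfl
  map_add' f g := by funext o l; cases l <;> simp

/-- `(Z f)(k :: l) = f l` if `χ k`, and `0` otherwise. -/
def opZ (χ : ℕ → Bool) : VV →+ VV where
  toFun f := fun o l => match l with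
    | [] => 0
    | k :: l => if χ k then f o l else 0
  map_zero' := by funext o l; cases l <;> simp
  map_add' f g := by
    funext o l; cases l with
    | nil => simp
    | cons k l => by_cases h : χ k <;> simp [h]

/-- `(S f)(o) = f (σ o)`. -/
def opS (σ : Equiv.Perm Om) : VV →+ VV where
  toFun f := fun o => f (σ o)
  map_zero' := rfl
  map_add' _ _ := rfl

/-- Powers of `Y`. -/
def opYp (n : ℕ) (f : VV →+ VV) : VV →+ VV := match n with
  | 0 => f
  | n + 1 => opY.comp (opYp n f)

lemma opYp_apply (n : ℕ) (f : VV →+ VV) (v : VV) (o : Om) (k : ℕ) (l : List ℕ) :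
    opYp n f v o (k :: l) = f v o ((k + n) :: l) := by
  induction n generalizing k with
  | zero => rfl
  | succ n ih =>
    show opYp n f v o ((k + 1) :: l) = _
    rw [ih]
    have : k + 1 + n = k + (n + 1) := by omega
    rw [this]

lemma xyz (χ : ℕ → Bool) (n : ℕ) :
    opX.comp (opYp n (opZ χ)) = if χ n then AddMonoidHom.id VV else 0 := by
  ext f o l
  show opYp n (opZ χ) f o (0 :: l) = _
  rw [opYp_apply]
  show (if χ (0 + n) then f o l else 0) = _
  rw [Nat.zero_add]
  by_cases h : χ n <;> simp [h]

/-- Elementary transvection on `V^3`. -/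
def tv (i j : Fin 3) (f : VV →+ VV) (v : Fin 3 → VV) : Fin 3 → VV :=
  fun l => if l = i then v i + f (v j) else v l

lemma tv_invol {i j : Fin 3} (h : i ≠ j) (f : VV →+ VV) : Function.Involutive (tv i j f) := by
  intro v
  funext l
  by_cases hl : l = i
  · subst hl
    simp only [tv, if_true, h.symm, if_false]
    rw [add_assoc, v_add_self, add_zero]
  · simp only [tv, hl, if_false]

/-- The corresponding permutation. -/
def pv (i j : Fin 3) (f : VV →+ VV) : Equiv.Perm (Fin 3 → VV) :=
  if h : i ≠ j then (tv_invol h f).toPerm else 1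

lemma pv_apply {i j : Fin 3} (h : i ≠ j) (f : VV →+ VV) (v : Fin 3 → VV) :
    pv i j f v = tv i j f v := by
  simp only [pv, h, ne_eq, not_false_eq_true, dif_pos]
  rfl

lemma pv_comm {i k j : Fin 3} (h1 : i ≠ k) (h2 : k ≠ j) (h3 : i ≠ j) (f g : VV →+ VV) :
    pv i k f * (pv k j g * (pv i k f * pv k j g)) = pv i j (f.comp g) := by
  apply Equiv.ext
  intro v
  simp only [Equiv.Perm.mul_apply, pv_apply h1, pv_apply h2, pv_apply h3]
  funext l
  by_cases hl : l = i
  · subst hl
    simp only [tv, if_true, h1, h1.symm, h2, h2.symm, h3, h3.symm, if_false, AddMonoidHom.comp_apply,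
      map_add]
    have : v l + (f (v k) + f (g (v j))) + (f (v k) + f (g (v j)) + f (g (v j))) =
        v l + f (g (v j)) + (f (v k) + f (v k)) + (f (g (v j)) + f (g (v j))) := by abel
    rw [this, v_add_self, v_add_self]; simp
  · by_cases hk : l = k
    · subst hk
      simp only [tv, if_true, h1, h1.symm, h2, h2.symm, h3, h3.symm, if_false, hl]
      rw [add_assoc, v_add_self, add_zero]
    · simp only [tv, hl, hk, if_false]

lemma pv_zero (i j : Fin 3) : pv i j 0 = 1 := by
  by_cases h : i ≠ j
  · apply Equiv.ext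
    intro v
    rw [pv_apply h]
    funext l
    by_cases hl : l = i
    · subst hl; simp [tv]
    · simp [tv, hl]
  · simp [pv, h]

lemma pv_self (i : Fin 3) (f : VV →+ VV) : pv i i f = 1 := by simp [pv]

/-- The diagonal permutation `diag(σ, σ, 1)`. -/
def dgf (σ : Equiv.Perm Om) (v : Fin 3 → VV) : Fin 3 → VV :=
  fun k => if k = 2 then v 2 else fun o => v k (σ o)

lemma dgf_left (σ : Equiv.Perm Om) (v : Fin 3 → VV) : dgf σ⁻¹ (dgf σ v) = v := by
  funext k
  by_cases h : k = 2
  · subst h; simp [dgf]
  · funext o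
    simp only [dgf, h, if_false]
    exact congrArg (v k) (σ.apply_symm_apply o)

/-- The diagonal permutation. -/
def dg (σ : Equiv.Perm Om) : Equiv.Perm (Fin 3 → VV) where
  toFun := dgf σ
  invFun := dgf σ⁻¹
  left_inv := dgf_left σ
  right_inv v := by
    have := dgf_left σ⁻¹ v
    rwa [inv_inv] at this

lemma dg_mul (σ τ : Equiv.Perm Om) : dg σ * dg τ = dg (τ * σ) := by
  apply Equiv.ext
  intro v
  funext k
  show dgf σ (dgf τ v) k = dgf (τ * σ) v k
  by_cases h : k = 2
  · subst h; simp [dgf]
  · funext o
    simp only [dgf, h, if_false]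
    rfl

lemma dg_one : dg 1 = 1 := by
  apply Equiv.ext
  intro v
  funext k
  show dgf 1 v k = v k
  by_cases h : k = 2
  · subst h; simp [dgf]
  · funext o
    simp only [dgf, h, if_false]
    rfl

lemma dg_inv (σ : Equiv.Perm Om) : (dg σ)⁻¹ = dg σ⁻¹ := by
  rw [inv_eq_iff_mul_eq_one, dg_mul, inv_mul_cancel, dg_one]

lemma dg_pow (σ : Equiv.Perm Om) (n : ℕ) : (dg σ) ^ n = dg (σ ^ n) := by
  induction n with
  | zero => rw [pow_zero, pow_zero, dg_one]
  | succ n ih => rw [pow_succ, ih, dg_mul, pow_succ']

/-- The product of six transvections is diagonal. -/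
lemma six (σ : Equiv.Perm Om) (h : ∀ o, σ (σ o) = o) :
    pv 0 1 (opS σ) * (pv 1 0 (opS σ) * (pv 0 1 (opS σ) * (pv 0 1 (AddMonoidHom.id VV) *
      (pv 1 0 (AddMonoidHom.id VV) * pv 0 1 (AddMonoidHom.id VV))))) = dg σ := by
  have h01 : (0 : Fin 3) ≠ 1 := by decide
  have h10 : (1 : Fin 3) ≠ 0 := by decide
  apply Equiv.ext
  intro v
  simp only [Equiv.Perm.mul_apply, pv_apply h01, pv_apply h10]
  show _ = dgf σ v
  have key : ∀ a : VV, opS σ (opS σ a) = a := by
    intro a
    funext o
    show a (σ (σ o)) = a o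
    rw [h]
  funext k
  have hk : k = 0 ∨ k = 1 ∨ k = 2 := by revert k; decide
  have e2 : ∀ a b : VV, a + b + a = b := by
    intro a b
    rw [add_comm a b, add_assoc, v_add_self, add_zero]
  have e3 : ∀ a b : VV, a + (a + b) = b := by
    intro a b
    rw [← add_assoc, v_add_self, zero_add]
  rcases hk with rfl | rfl | rfl
  · simp only [tv, dgf, h10, h01, if_true, if_false, AddMonoidHom.id_apply, map_add, key]
    have h02 : ¬ ((0 : Fin 3) = 2) := by decide
    simp only [h02, if_false]
    have : ∀ a b c : VV, a + (b + a) + b + c = c := by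
      intro a b c
      have : a + (b + a) + b + c = (a + a) + (b + b) + c := by abel
      rw [this, v_add_self, v_add_self, zero_add, zero_add]
    funext o
    simp only [opS, AddMonoidHom.coe_mk, ZeroHom.coe_mk, Pi.add_apply]
    have hz : ∀ a : ZMod 2, a + a = 0 := fun a => CharTwo.add_self_eq_zero a
    funext l
    simp only [Pi.add_apply, h]
    generalize v 0 o l = a
    generalize v 1 o l = b
    generalize v 0 (σ o) l = c
    generalize v 1 (σ o) l = d
    revert a b c d
    decide
  · have h12 : ¬ ((1 : Fin 3) = 2) := by decide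
    simp only [tv, dgf, h10, h01, if_true, if_false, AddMonoidHom.id_apply, map_add, key, h12]
    funext o l
    simp only [opS, AddMonoidHom.coe_mk, ZeroHom.coe_mk, Pi.add_apply, h]
    generalize v 0 o l = a
    generalize v 1 o l = b
    generalize v 0 (σ o) l = c
    generalize v 1 (σ o) l = d
    revert a b c d
    decide
  · have h20 : ¬ ((2 : Fin 3) = 0) := by decide
    have h21 : ¬ ((2 : Fin 3) = 1) := by decide
    simp only [tv, dgf, h20, h21, if_true, if_false]

end Pool.Agent.L5helper51.MD
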