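import Pool.Agent.L5helper51.MD.Rules
import Pool.Agent.H715R3.S5
import Pool.Agent.Y602.ST.Red

set_option autoImplicit false

/-!
Points of the sofic subshift.
-/

namespace Pool.Agent.L5helper51.MD

open Encodable
open Pool.Agent.H715R3.Sof (succ_ediv xor_decide_odd next_level)
open Pool.Agent.Y602.ST (fi fi_le fi_spec fi_min)

/-- The label at distance `q`. -/
def xl (u : ℕ → Fin 3) (q : ℤ) : Fin 4 := if 0 ≤ q then (u q.toNat).castSucc else 3

/-- Labels. -/
def lab (u : ℕ → Fin 3) : Om → Fin 4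
  | (_, true, none, q) => xl u q
  | (_, true, some q, p) => if p = 0 then 3 else xl u q
  | (_, false, _, _) => 3

/-- Labels of lines. -/
def lin (u : ℕ → Fin 3) : Om → Fin 4
  | (_, true, none, _) => 3
  | (_, true, some q, _) => xl u q
  | (_, false, _, _) => 3

/-- Extra lines. -/
def Eo (o : Om) : Bool := decide (o.2.1 = false ∧ o.2.2.1 = none)
/-- After a base. -/
def No (o : Om) : Bool := decide (o.2.1 = true ∧ o.2.2.1 = none ∧ 0 < o.2.2.2)
/-- Bases. -/
def Bo (o : Om) : Bool := decide (isB o)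
/-- Parity. -/
def Po (o : Om) : Bool := decide (o.2.2.2 % 2 = 1)
/-- Marker. -/
def Mo (o : Om) (n : ℤ) : Bool :=
  if o.2.1 = true ∧ o.2.2.1 = none ∧ 0 ≤ o.2.2.2 then decide ((2 ^ o.2.2.2.toNat : ℤ) ∣ n)
  else false
/-- Odometer. -/
def Wo (o : Om) (n : ℤ) : Bool :=
  if o.2.1 = true ∧ o.2.2.1 = none ∧ 0 ≤ o.2.2.2 then
    decide ((n / 2 ^ o.2.2.2.toNat) % 2 = 1)
  else false

/-- The 2-adic valuation. -/
def vl (n : ℕ) : ℕ := fi (fun j => decide (¬ n % 2 ^ (j + 1) = 0)) n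

lemma vl_lt {n : ℕ} (h : n ≠ 0) : vl n < n := by
  by_contra hcon
  have h1 : n - 1 < vl n := by omega
  have h2 := fi_min h1
  simp only [decide_not, Bool.not_eq_eq_eq_not, Bool.not_false, decide_eq_true_eq] at h2
  have h3 : n - 1 + 1 = n := by omega
  rw [h3, Nat.mod_eq_of_lt Nat.lt_two_pow_self] at h2
  exact h h2

lemma vl_spec {n : ℤ} {L : ℕ} (h1 : (2 ^ L : ℤ) ∣ n) (h2 : (n / 2 ^ L) % 2 = 1) :
    vl n.natAbs = L := by
  have hd : (0 : ℤ) < 2 ^ L := by positivity
  obtain ⟨i, hi⟩ := h1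
  rw [hi, Int.mul_ediv_cancel_left i hd.ne'] at h2
  have hN : n.natAbs = 2 ^ L * i.natAbs := by
    rw [hi, Int.natAbs_mul, Int.natAbs_pow]; rfl
  have hodd : i.natAbs % 2 = 1 := by omega
  have hdvd : 2 ^ L ∣ n.natAbs := ⟨_, hN⟩
  have hnd : ¬ n.natAbs % 2 ^ (L + 1) = 0 := by
    intro h
    have h3 := Nat.dvd_of_mod_eq_zero h
    rw [hN, pow_succ] at h3
    have h4 := Nat.dvd_of_mul_dvd_mul_left (by positivity : 0 < 2 ^ L) h3
    omega
  have hlt : L < n.natAbs := by
    have h5 : L < 2 ^ L := Nat.lt_two_pow_self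
    have h6 : 2 ^ L * 1 ≤ 2 ^ L * i.natAbs := Nat.mul_le_mul_left _ (by omega)
    omega
  rcases lt_trichotomy (vl n.natAbs) L with h | h | h
  · exfalso
    have h7 : vl n.natAbs < n.natAbs := by omega
    have h8 : decide (¬ n.natAbs % 2 ^ (vl n.natAbs + 1) = 0) = true :=
      fi_spec (p := fun j => decide (¬ n.natAbs % 2 ^ (j + 1) = 0)) h7
    rw [decide_eq_true_eq] at h8
    apply h8
    apply Nat.mod_eq_zero_of_dvd
    exact (pow_dvd_pow 2 (by omega)).trans hdvd
  · exact h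
  · exfalso
    have h8 : decide (¬ n.natAbs % 2 ^ (L + 1) = 0) = false :=
      fi_min (p := fun j => decide (¬ n.natAbs % 2 ^ (j + 1) = 0)) h
    rw [decide_eq_false_iff_not] at h8
    exact h8 hnd

/-- Output. -/
def Yo (u : ℕ → Fin 3) (n : ℤ) : Bool × Fin 3 :=
  (decide (vl n.natAbs % 2 = 1), u (vl n.natAbs))

/-- The symbol at a position. -/
def x0 (u : ℕ → Fin 3) (o : Om) (n : ℤ) : Al :=
  ((Po o, Mo o n, Wo o n), (Bo o, No o, Eo o), (lab u o, lin u o), Yo u n)

variable (u : ℕ → Fin 3)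

lemma c_w (o : Om) (n : ℤ) : Wo o (n + 1) = xor (Wo o n) (Mo o (n + 1)) := by
  unfold Wo Mo
  by_cases h : o.2.1 = true ∧ o.2.2.1 = none ∧ 0 ≤ o.2.2.2
  · simp only [if_pos h]
    rw [succ_ediv (by positivity), xor_decide_odd]
  · simp only [if_neg h]
    rfl

lemma c_out (o : Om) (n : ℤ) (hM : Mo o n = true) (hW : Wo o n = true) :
    lab u o = (Yo u n).2.castSucc ∧ Po o = (Yo u n).1 := by
  obtain ⟨s, f, q, p⟩ := o
  unfold Mo at hM
  unfold Wo at hW
  by_cases h : f = true ∧ q = none ∧ 0 ≤ p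
  · obtain ⟨rfl, rfl, hp⟩ := h
    simp only [hp, and_self, if_true, decide_eq_true_eq] at hM hW
    have hv := vl_spec hM hW
    constructor
    · simp only [lab, Yo, hv, xl, hp, if_true]
    · simp only [Po, Yo, hv]
      rw [decide_eq_decide]
      omega
  · rw [if_neg h] at hM
    exact absurd hM (by decide)

lemma c_b (o : Om) : Bo o = true ∨ Bo (fG o) = true := by
  by_cases h : isB o
  · left; simp [Bo, h]
  · right
    rw [fG_of_not h]
    simp [Bo, isB_bs]

lemma Bo_true {o : Om} : Bo o = true ↔ isB o := decide_eq_true_iff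

lemma Bo_false {o : Om} : Bo o = false ↔ ¬ isB o := decide_eq_false_iff_not

lemma c_1 (o : Om) (n : ℤ) (h : Bo o = true) : Mo o n = true ∧ Po o = false ∧
    No (sh 1 o) = true := by
  rw [Bo_true] at h
  obtain ⟨s, f, q, p⟩ := o
  simp only [isB] at h
  obtain ⟨rfl, rfl, rfl⟩ := h
  refine ⟨?_, ?_, ?_⟩
  · simp [Mo]
  · simp [Po]
  · simp [No, sh]

lemma c_2 (o : Om) (h : No o = true) : No (sh 1 o) = true ∧ Bo o = false := by
  obtain ⟨s, f, q, p⟩ := o
  simp only [No, decide_eq_true_eq] at h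
  obtain ⟨rfl, rfl, hp⟩ := h
  constructor
  · simp only [No, sh, decide_eq_true_eq, true_and]
    omega
  · rw [Bo_false]
    simp only [isB, true_and]
    omega

lemma c_3 (o : Om) (n : ℤ) (h : Bo (sh 1 o) = false) :
    Mo (sh 1 o) n = (Mo o n && !(Wo o n)) ∧ Po (sh 1 o) = !(Po o) := by
  rw [Bo_false] at h
  obtain ⟨s, f, q, p⟩ := o
  have esh : sh 1 (s, f, q, p) = (s, f, q, p + 1) := rfl
  rw [esh] at h ⊢
  simp only [isB] at h
  constructor
  · unfold Mo Wo
    simp only []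
    by_cases h1 : f = true ∧ q = none ∧ 0 ≤ p
    · have h2 : f = true ∧ q = none ∧ 0 ≤ p + 1 := ⟨h1.1, h1.2.1, by omega⟩
      rw [if_pos h1, if_pos h1, if_pos h2]
      have h3 : (p + 1).toNat = p.toNat + 1 := by omega
      rw [h3, next_level]
    · have h2 : ¬ (f = true ∧ q = none ∧ 0 ≤ p + 1) := by
        rintro ⟨a, b, c⟩
        apply h
        refine ⟨a, b, ?_⟩
        by_contra hne
        exact h1 ⟨a, b, by omega⟩
      rw [if_neg h1, if_neg h1, if_neg h2]
      rfl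
  · simp only [Po]
    by_cases h1 : p % 2 = 1
    · have h2 : ¬ (p + 1) % 2 = 1 := by omega
      simp [h1, h2]
    · have h2 : (p + 1) % 2 = 1 := by omega
      simp [h1, h2]

lemma c_v (o : Om) : lin u (fV o) = lab u o := by
  obtain ⟨s, f, _ | q, p⟩ := o
  · cases f
    · simp [fV, lin, lab]
    · simp [fV, lin, lab]
  · by_cases hp : p = 0
    · subst hp
      cases f
      · simp [fV, lin, lab]
      · simp [fV, lin, lab]
    · cases f
      · simp [fV, lin, lab, hp]
      · simp [fV, lin, lab, hp]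

lemma c_c (o : Om) : lin u (sh 1 o) = lin u o := by
  obtain ⟨s, f, _ | q, p⟩ := o <;> cases f <;> simp [sh, lin]

lemma c_e (o : Om) : Eo (sh 1 o) = Eo o := rfl

lemma c_e3 (o : Om) (h : Eo o = true) : lab u o = 3 := by
  obtain ⟨s, f, q, p⟩ := o
  simp only [Eo, decide_eq_true_eq] at h
  obtain ⟨rfl, rfl⟩ := h
  rfl

lemma c_wB (i : ℕ) (o : Om) (h : Bo o = true) : Eo (fW i o) = true := by
  rw [Bo_true] at h
  obtain ⟨s, f, q, p⟩ := o
  simp only [isB] at h
  obtain ⟨rfl, rfl, rfl⟩ := h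
  have hq : Qs i ((s, true, none, 0) : Om) := Or.inl ⟨rfl, rfl⟩
  rw [fW, if_pos hq]
  simp [Eo]

lemma c_wC (hu : ∀ j (i : Fin 3), psi j i.val → u j ≠ i) (i : Fin 3) (o : Om)
    (h : lin u o = i.castSucc) : lin u (fW i.val o) ≠ 3 := by
  have h3 : ∀ i : Fin 3, i.castSucc ≠ 3 := by decide
  by_cases hq : Qs i.val o
  · exfalso
    obtain ⟨s, f, q, p⟩ := o
    cases f
    · exact h3 i h.symm
    · rcases hq with ⟨h1, -⟩ | ⟨j, hj, h1, -⟩
      · simp only at h1
        subst h1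
        exact h3 i h.symm
      · simp only at h1
        subst h1
        simp only [lin, xl, Int.natCast_nonneg, if_true, Int.toNat_natCast] at h
        exact hu j i hj (Fin.castSucc_injective _ h)
  · rw [fW, if_neg hq, h]
    exact h3 i

lemma rule_x0 (hu : ∀ j (i : Fin 3), psi j i.val → u j ≠ i) (g : HG) (n : ℤ) :
    Rule (fun h : G2 => x0 u (st (g * h.1)) (n + Multiplicative.toAdd h.2)) := by
  constructor
  · intro i
    rfl
  · show ((Po (st (g * 1)), Bo (st (g * 1))), (No (st (g * 1)), Eo (st (g * 1))),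
      (lab u (st (g * 1)), lin u (st (g * 1)))) = _
    rfl
  · show Wo (st (g * 1)) (n + 1) = xor (Wo (st (g * 1)) (n + 0)) (Mo (st (g * 1)) (n + 1))
    rw [add_zero, c_w]
  · show Mo (st (g * 1)) (n + 0) = true → Wo (st (g * 1)) (n + 0) = true →
      lab u (st (g * 1)) = (Yo u (n + 0)).2.castSucc ∧ Po (st (g * 1)) = (Yo u (n + 0)).1
    exact c_out u _ _
  · show Bo (st (g * 1)) = true ∨ Bo (st (g * hγ)) = true
    rw [mul_one, st_hγ]
    exact c_b _
  · show Bo (st (g * 1)) = true → Mo (st (g * 1)) (n + 0) = true ∧ Po (st (g * 1)) = false ∧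
      No (st (g * ht)) = true
    rw [mul_one, st_ht]
    exact c_1 _ _
  · show No (st (g * 1)) = true → No (st (g * ht)) = true ∧ Bo (st (g * 1)) = false
    rw [mul_one, st_ht]
    exact c_2 _
  · show Bo (st (g * ht)) = false → Mo (st (g * ht)) (n + 0) =
      (Mo (st (g * 1)) (n + 0) && !(Wo (st (g * 1)) (n + 0))) ∧
      Po (st (g * ht)) = !(Po (st (g * 1)))
    rw [mul_one, st_ht]
    exact c_3 _ _
  · show lin u (st (g * hv)) = lab u (st (g * 1))
    rw [mul_one, st_hv]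
    exact c_v u _
  · show lin u (st (g * ht)) = lin u (st (g * 1))
    rw [mul_one, st_ht]
    exact c_c u _
  · show Eo (st (g * ht)) = Eo (st (g * 1))
    rw [mul_one, st_ht]
    exact c_e _
  · show Eo (st (g * 1)) = true → lab u (st (g * 1)) = 3
    exact c_e3 u _
  · intro i
    show Bo (st (g * 1)) = true → Eo (st (g * hw i)) = true
    rw [mul_one, st_hw]
    exact c_wB _ _
  · intro i
    show lin u (st (g * 1)) = i.castSucc → lin u (st (g * hw i)) ≠ 3
    rw [mul_one, st_hw]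
    exact c_wC u hu i _

/-- The configuration. -/
noncomputable def xx (t : G2) : Fin (Fintype.card Al) :=
  eA (x0 u (st t.1) (Multiplicative.toAdd t.2))

lemma eA_xx (t : G2) : eA.symm (xx u t) = x0 u (st t.1) (Multiplicative.toAdd t.2) :=
  Equiv.symm_apply_apply _ _

lemma xx_mem (hu : ∀ j (i : Fin 3), psi j i.val → u j ≠ i) : xx u ∈ XX := by
  intro t
  have h : (fun h : G2 => eA.symm (xx u (t * h))) =
      fun h : G2 => x0 u (st (t.1 * h.1))
        (Multiplicative.toAdd t.2 + Multiplicative.toAdd h.2) := by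
    funext h
    rw [eA_xx, Prod.fst_mul, Prod.snd_mul, toAdd_mul]
  rw [h]
  exact rule_x0 u hu _ _

/-- The point of the sofic subshift. -/
def yy (t : G2) : Fin 6 := eY (Yo u (Multiplicative.toAdd t.2))

lemma yy_mem (hu : ∀ j (i : Fin 3), psi j i.val → u j ≠ i) : yy u ∈ YY := by
  refine ⟨xx u, xx_mem u hu, ?_⟩
  funext t
  simp only [yy, outS, xx, Equiv.symm_apply_apply]
  rfl

end Pool.Agent.L5helper51.MD
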