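import Pool.Agent.L5helper51.MD.Grp
import Pool.Agent.H715R3.S1

set_option autoImplicit false

/-!
The group `HG × ℤ`, its presentation and basic computability facts.
-/

namespace Pool.Agent.L5helper51.MD

open Encodable Nat.Partrec
open Pool.Agent.H715R3.Medv (stg inA inB chi winv rePred_exists inseparable pre pre_prefix)
open Pool.Agent.H715R3.Sof (wordVal RecursivelyPresented wordVal_append wordVal_lift)

/-- The group. -/
abbrev G2 : Type := HG × Multiplicative ℤ

/-- The generators. -/
def gens2 (i : Fin 100) : G2 :=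
  if h : i.val < 99 then (gens ⟨i.val, h⟩, 1) else (1, Multiplicative.ofAdd 1)

/-- Embedding of letters. -/
def emb (i : Fin 99) : Fin 100 := i.castSucc
/-- The last letter. -/
def zt : Fin 100 := ⟨99, by omega⟩

lemma gens2_emb (i : Fin 99) : gens2 (emb i) = (gens i, 1) := by
  have : (emb i).val < 99 := i.2
  simp only [gens2, this, dif_pos]
  rfl

lemma gens2_zt : gens2 zt = (1, Multiplicative.ofAdd 1) := by
  simp [gens2, zt]

lemma fin100_cases (i : Fin 100) : (∃ j, i = emb j) ∨ i = zt := by
  by_cases h : i.val < 99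
  · exact Or.inl ⟨⟨i.val, h⟩, Fin.ext rfl⟩
  · right
    apply Fin.ext
    show i.val = 99
    omega

/-- Words. -/
abbrev Wd2 : Type := List (Fin 100 × Bool)

/-- Embedding of words. -/
def embW (w : Wd) : Wd2 := w.map (fun p => (emb p.1, p.2))

/-- Commutation relators. -/
def cw (i : Fin 99) : Wd2 := [(emb i, true), (zt, true), (emb i, false), (zt, false)]

/-- All relators. -/
def rel2 (q : ℕ) : Wd2 := ((List.ofFn cw)[q.unpair.1]?).getD (embW (rel q.unpair.2))

lemma embW_primrec : Primrec embW := by
  have h : Primrec (fun p : Fin 99 × Bool => (emb p.1, p.2)) :=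
    (Primrec.dom_finite _)
  exact Primrec.list_map Primrec.id (h.comp Primrec.snd).to₂

lemma rel2_primrec : Primrec rel2 := by
  refine Primrec.option_getD.comp ?_ ?_
  · exact Primrec.list_getElem?.comp (Primrec.const _) (Primrec.fst.comp Primrec.unpair)
  · exact embW_primrec.comp (rel_primrec.comp (Primrec.snd.comp Primrec.unpair))

lemma wordVal_embW (w : Wd) : wordVal gens2 (embW w) = (ev w, 1) := by
  induction w with
  | nil => rfl
  | cons p w ih =>
    have h1 : embW (p :: w) = [(emb p.1, p.2)] ++ embW w := rfl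
    have h2 : ev (p :: w) = cond p.2 (gens p.1) (gens p.1)⁻¹ * ev w := by simp [ev]
    rw [h1, wordVal_append, ih, h2]
    obtain ⟨i, b⟩ := p
    cases b
    · simp [wordVal, gens2_emb]
    · simp [wordVal, gens2_emb]

/-- Normal subgroup of relations. -/
def NN : Subgroup (FreeGroup (Fin 100)) :=
  Subgroup.normalClosure (Set.range (fun n => FreeGroup.mk (rel2 n)))

instance : NN.Normal := Subgroup.normalClosure_normal

lemma rel2_cw (i : Fin 99) : rel2 (Nat.pair i.val 0) = cw i := by
  simp only [rel2, Nat.unpair_pair]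
  rw [List.getElem?_ofFn]
  simp

lemma rel2_rel (n : ℕ) : rel2 (Nat.pair 99 n) = embW (rel n) := by
  simp only [rel2, Nat.unpair_pair]
  rw [List.getElem?_ofFn]
  simp

lemma rel2_mem (n : ℕ) : (FreeGroup.mk (rel2 n)) ∈ NN :=
  Subgroup.subset_normalClosure ⟨n, rfl⟩

/-- Quotient. -/
abbrev QQ : Type := FreeGroup (Fin 100) ⧸ NN

/-- The map from the free group on 99 letters. -/
def fe : FreeGroup (Fin 99) →* FreeGroup (Fin 100) := FreeGroup.map emb

lemma fe_mk (w : Wd) : fe (FreeGroup.mk w) = FreeGroup.mk (embW w) := by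
  rw [fe, FreeGroup.map.mk]; rfl

/-- Inclusion of `HG` in the quotient. -/
def iot : HG →* QQ :=
  PresentedGroup.toGroup (f := fun i => (QuotientGroup.mk (FreeGroup.of (emb i)) : QQ)) (by
    rintro _ ⟨n, rfl⟩
    have h : (FreeGroup.lift (fun i => (QuotientGroup.mk (FreeGroup.of (emb i)) : QQ))) =
        (QuotientGroup.mk' NN).comp fe := by
      ext i
      simp [fe]
    show FreeGroup.lift _ (FreeGroup.mk (rel n)) = 1
    rw [h, MonoidHom.comp_apply, fe_mk, ← rel2_rel]
    exact (QuotientGroup.eq_one_iff _).2 (rel2_mem _))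

lemma iot_gens (i : Fin 99) : iot (gens i) = (QuotientGroup.mk (FreeGroup.of (emb i)) : QQ) := by
  unfold iot gens
  exact PresentedGroup.toGroup.of _

/-- The central element. -/
def zq : QQ := QuotientGroup.mk (FreeGroup.of zt)

lemma comm_gen (i : Fin 99) : Commute (iot (gens i)) zq := by
  rw [iot_gens]
  have h := (QuotientGroup.eq_one_iff (N := NN) _).2 (rel2_mem (Nat.pair i.val 0))
  rw [rel2_cw] at h
  have e : FreeGroup.mk (cw i) = FreeGroup.of (emb i) * FreeGroup.of zt * (FreeGroup.of (emb i))⁻¹ *
      (FreeGroup.of zt)⁻¹ := by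
    simp only [FreeGroup.of, FreeGroup.inv_mk, FreeGroup.mul_mk]
    rfl
  rw [e] at h
  have h' : (QuotientGroup.mk (FreeGroup.of (emb i)) : QQ) * zq *
      (QuotientGroup.mk (FreeGroup.of (emb i)) : QQ)⁻¹ * zq⁻¹ = 1 := h
  rw [mul_inv_eq_one, mul_inv_eq_iff_eq_mul] at h'
  exact h'

lemma comm_all (g : HG) : Commute (iot g) zq := by
  have hg : g ∈ Subgroup.closure (Set.range gens) := by rw [gens_closure]; trivial
  induction hg using Subgroup.closure_induction with
  | mem x hx => obtain ⟨i, rfl⟩ := hx; exact comm_gen i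
  | one => rw [map_one]; exact Commute.one_left _
  | mul x y _ _ hx hy => rw [map_mul]; exact hx.mul_left hy
  | inv x _ hx => rw [map_inv]; exact hx.inv_left

/-- The inverse map. -/
def psiG : G2 →* QQ :=
  iot.noncommCoprod (zpowersHom QQ zq) (fun g n => by
    rw [zpowersHom_apply]
    exact (comm_all g).zpow_right _)

lemma psiG_lift : psiG.comp (FreeGroup.lift gens2) = QuotientGroup.mk' NN := by
  ext i
  rw [MonoidHom.comp_apply, FreeGroup.lift_apply_of]
  rcases fin100_cases i with ⟨j, rfl⟩ | rfl
  · rw [gens2_emb]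
    simp [psiG, iot_gens]
  · rw [gens2_zt]
    simp [psiG, zq]

lemma gens2_closure : Subgroup.closure (Set.range gens2) = ⊤ := by
  rw [Subgroup.eq_top_iff']
  rintro ⟨g, n⟩
  have h1 : ∀ g : HG, ((g, 1) : G2) ∈ Subgroup.closure (Set.range gens2) := by
    intro g
    have hg : g ∈ Subgroup.closure (Set.range gens) := by rw [gens_closure]; trivial
    induction hg using Subgroup.closure_induction with
    | mem x hx =>
      obtain ⟨i, rfl⟩ := hx
      exact Subgroup.subset_closure ⟨emb i, gens2_emb i⟩
    | one => exact Subgroup.one_mem _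
    | mul x y _ _ hx hy =>
      have := Subgroup.mul_mem _ hx hy
      simpa using this
    | inv x _ hx =>
      have := Subgroup.inv_mem _ hx
      simpa using this
  have h2 : ((1, n) : G2) ∈ Subgroup.closure (Set.range gens2) := by
    have h3 : ((1, Multiplicative.ofAdd 1) : G2) ∈ Subgroup.closure (Set.range gens2) :=
      Subgroup.subset_closure ⟨zt, gens2_zt⟩
    have h4 := Subgroup.zpow_mem _ h3 (Multiplicative.toAdd n)
    have h5 : ((1, Multiplicative.ofAdd 1) : G2) ^ (Multiplicative.toAdd n) = (1, n) := by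
      ext1
      · simp
      · simp only [Prod.pow_snd]
        rw [← ofAdd_zsmul]
        simp
    rwa [h5] at h4
  have := Subgroup.mul_mem _ (h1 g) h2
  simpa using this

theorem rp2 : RecursivelyPresented gens2 := by
  refine ⟨gens2_closure, Set.range rel2, ?_, ?_⟩
  · have hR : Computable₂ (fun (w : Wd2) (n : ℕ) => decide (rel2 n = w)) := by
      have h1 : PrimrecPred (fun p : Wd2 × ℕ => rel2 p.2 = p.1) :=
        Primrec.eq.comp (rel2_primrec.comp Primrec.snd) Primrec.fst
      exact h1.decide.to_comp
    refine REPred.of_eq (rePred_exists hR) ?_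
    intro w
    simp [Set.mem_range]
  · have himg : FreeGroup.mk '' Set.range rel2 = Set.range (fun n => FreeGroup.mk (rel2 n)) := by
      ext x; simp
    rw [himg]
    show _ = NN
    apply le_antisymm
    · intro x hx
      rw [MonoidHom.mem_ker] at hx
      have h1 : psiG (FreeGroup.lift gens2 x) = QuotientGroup.mk' NN x := by
        rw [← MonoidHom.comp_apply, psiG_lift]
      rw [hx, map_one] at h1
      exact (QuotientGroup.eq_one_iff x).1 h1.symm
    · refine Subgroup.normalClosure_le_normal ?_
      rintro _ ⟨n, rfl⟩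
      show _ ∈ (FreeGroup.lift gens2).ker
      rw [MonoidHom.mem_ker, ← wordVal_lift]
      simp only [rel2]
      rw [List.getElem?_ofFn]
      by_cases h : n.unpair.1 < 99
      · simp only [h, dite_true, Option.getD_some, cw, wordVal]
        simp [gens2_emb, gens2_zt]
      · simp only [h, dite_false, Option.getD_none]
        rw [wordVal_embW, ev_rel]
        rfl

/-! ### Configurations -/

lemma ev_surj (g : HG) : ∃ w, ev w = g := by
  obtain ⟨a, rfl⟩ := QuotientGroup.mk_surjective g
  refine ⟨a.toWord, ?_⟩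
  rw [ev_eq, FreeGroup.mk_toWord]

lemma const_of_gens {α : Type*} (x : HG → α) (h : ∀ g s, x g = x (g * gens s)) (g : HG) :
    x g = x 1 := by
  have key : ∀ a : HG, a ∈ Subgroup.closure (Set.range gens) → ∀ g, x (g * a) = x g := by
    intro a ha
    induction ha using Subgroup.closure_induction with
    | mem a ha =>
      obtain ⟨s, rfl⟩ := ha
      intro g; exact (h g s).symm
    | one => intro g; rw [mul_one]
    | mul a b _ _ iha ihb => intro g; rw [← mul_assoc, ihb, iha]
    | inv a _ iha =>
      intro g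
      have := iha (g * a⁻¹)
      rw [inv_mul_cancel_right] at this
      exact this.symm
  have := key g (by rw [gens_closure]; trivial) 1
  rwa [one_mul] at this

/-- Powers of the central letter. -/
def zw (n : ℤ) : Wd2 := List.replicate n.natAbs (zt, decide (0 ≤ n))

lemma wordVal_zw (n : ℤ) : wordVal gens2 (zw n) = (1, Multiplicative.ofAdd n) := by
  unfold zw wordVal
  rw [List.map_replicate, List.prod_replicate]
  by_cases h : 0 ≤ n
  · simp only [h, decide_true, cond_true, gens2_zt]
    ext1
    · simp
    · simp only [Prod.pow_snd]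
      rw [← ofAdd_nsmul]
      congr 1
      simp only [nsmul_eq_mul, mul_one]
      omega
  · simp only [h, decide_false, cond_false, gens2_zt]
    ext1
    · simp
    · simp only [Prod.pow_snd, Prod.snd_inv]
      rw [← ofAdd_neg, ← ofAdd_nsmul]
      congr 1
      simp only [nsmul_eq_mul]
      omega

lemma wordVal_surj2 (g : HG) (n : Multiplicative ℤ) : ∃ w : Wd2, wordVal gens2 w = (g, n) := by
  obtain ⟨w, rfl⟩ := ev_surj g
  refine ⟨embW w ++ zw (Multiplicative.toAdd n), ?_⟩
  rw [wordVal_append, wordVal_embW, wordVal_zw]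
  simp

/-- Exponent counts. -/
def zs (w : Wd2) : ℕ × ℕ := w.foldr (fun p acc =>
  if p.1 = zt then (bif p.2 then (acc.1 + 1, acc.2) else (acc.1, acc.2 + 1)) else acc) (0, 0)

lemma zs_primrec : Primrec zs := by
  have hh : Primrec₂ (fun (_ : Wd2) (q : (Fin 100 × Bool) × (ℕ × ℕ)) =>
      if q.1.1 = zt then (bif q.1.2 then (q.2.1 + 1, q.2.2) else (q.2.1, q.2.2 + 1)) else q.2) := by
    have p1 : Primrec (fun a : Wd2 × ((Fin 100 × Bool) × (ℕ × ℕ)) => a.2.1.1) :=
      Primrec.fst.comp (Primrec.fst.comp Primrec.snd)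
    have p2 : Primrec (fun a : Wd2 × ((Fin 100 × Bool) × (ℕ × ℕ)) => a.2.1.2) :=
      Primrec.snd.comp (Primrec.fst.comp Primrec.snd)
    have p3 : Primrec (fun a : Wd2 × ((Fin 100 × Bool) × (ℕ × ℕ)) => a.2.2.1) :=
      Primrec.fst.comp (Primrec.snd.comp Primrec.snd)
    have p4 : Primrec (fun a : Wd2 × ((Fin 100 × Bool) × (ℕ × ℕ)) => a.2.2.2) :=
      Primrec.snd.comp (Primrec.snd.comp Primrec.snd)
    refine Primrec.ite (Primrec.eq.comp p1 (Primrec.const zt)) ?_ (Primrec.snd.comp Primrec.snd)
    exact Primrec.cond p2 ((Primrec.succ.comp p3).pair p4) (p3.pair (Primrec.succ.comp p4))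
  exact Primrec.list_foldr Primrec.id (Primrec.const (0, 0)) hh

lemma zs_spec (w : Wd2) : Multiplicative.toAdd (wordVal gens2 w).2 = ((zs w).1 : ℤ) - (zs w).2 := by
  induction w with
  | nil => simp [wordVal, zs]
  | cons p w ih =>
    have h1 : wordVal gens2 (p :: w) = cond p.2 (gens2 p.1) (gens2 p.1)⁻¹ * wordVal gens2 w := by
      simp [wordVal]
    have h2 : zs (p :: w) = if p.1 = zt then (bif p.2 then ((zs w).1 + 1, (zs w).2) else
        ((zs w).1, (zs w).2 + 1)) else zs w := rfl
    rw [h1, h2, Prod.snd_mul, toAdd_mul, ih]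
    obtain ⟨i, b⟩ := p
    rcases fin100_cases i with ⟨j, rfl⟩ | rfl
    · have hne : emb j ≠ zt := by
        intro e
        have := congrArg Fin.val e
        simp only [emb, zt, Fin.val_castSucc] at this
        have := j.2
        omega
      cases b
      · simp [gens2_emb, hne]
      · simp [gens2_emb, hne]
    · cases b
      · simp [gens2_zt]; ring
      · simp [gens2_zt]; ring

/-- The counts are bounded by the length. -/
lemma zs_le (w : Wd2) : (zs w).1 + (zs w).2 ≤ w.length := by
  induction w with
  | nil => simp [zs]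
  | cons p w ih =>
    have h2 : zs (p :: w) = if p.1 = zt then (bif p.2 then ((zs w).1 + 1, (zs w).2) else
        ((zs w).1, (zs w).2 + 1)) else zs w := rfl
    rw [h2, List.length_cons]
    split_ifs
    · cases p.2
      · simp only [cond_false]; omega
      · simp only [cond_true]; omega
    · omega

end Pool.Agent.L5helper51.MD
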