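import Pool.Agent.L5helper51.MD.State
import Pool.Agent.H715R3.S4

set_option autoImplicit false

/-!
The subshift of finite type and its sofic factor.
-/

namespace Pool.Agent.L5helper51.MD

open Encodable
open Pool.Agent.H715R3.Sof (wordVal IsSFT IsSofic isSFT_of_local translate)

/-- Symbols: parity, marker, odometer, base, after a base, extra line, label, line label,
output. -/
abbrev Al : Type :=
  (Bool × Bool × Bool) × (Bool × Bool × Bool) × (Fin 4 × Fin 4) × (Bool × Fin 3)

/-- Parity. -/
def aP (s : Al) : Bool := s.1.1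
/-- Marker. -/
def aM (s : Al) : Bool := s.1.2.1
/-- Odometer. -/
def aW (s : Al) : Bool := s.1.2.2
/-- Base. -/
def aB (s : Al) : Bool := s.2.1.1
/-- After a base. -/
def aN (s : Al) : Bool := s.2.1.2.1
/-- Extra line. -/
def aE (s : Al) : Bool := s.2.1.2.2
/-- Label. -/
def aL (s : Al) : Fin 4 := s.2.2.1.1
/-- Label of the line. -/
def aC (s : Al) : Fin 4 := s.2.2.1.2
/-- Output. -/
def aY (s : Al) : Bool × Fin 3 := s.2.2.2

/-- Coding of the alphabet. -/
noncomputable def eA : Al ≃ Fin (Fintype.card Al) := Fintype.equivFin Al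

/-- The shift in the product. -/
def t2 : G2 := (ht, 1)
/-- The matching in the product. -/
def g2 : G2 := (hγ, 1)
/-- The side lines in the product. -/
def v2 : G2 := (hv, 1)
/-- The exchanges in the product. -/
def w2 (i : Fin 3) : G2 := (hw i, 1)
/-- Central generator. -/
def z2 : G2 := (1, Multiplicative.ofAdd 1)

/-- The part of a symbol that is constant in the central direction. -/
def aZ (s : Al) : (Bool × Bool) × (Bool × Bool) × (Fin 4 × Fin 4) :=
  ((aP s, aB s), (aN s, aE s), (aL s, aC s))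

/-- The local rule. -/
structure Rule (x : G2 → Al) : Prop where
  inv : ∀ i : Fin 99, aY (x (gens i, 1)) = aY (x 1)
  zz : aZ (x z2) = aZ (x 1)
  w : aW (x z2) = xor (aW (x 1)) (aM (x z2))
  out : aM (x 1) = true → aW (x 1) = true → aL (x 1) = (aY (x 1)).2.castSucc ∧
    aP (x 1) = (aY (x 1)).1
  b : aB (x 1) = true ∨ aB (x g2) = true
  s1 : aB (x 1) = true → aM (x 1) = true ∧ aP (x 1) = false ∧ aN (x t2) = true
  s2 : aN (x 1) = true → aN (x t2) = true ∧ aB (x 1) = false
  s3 : aB (x t2) = false → aM (x t2) = (aM (x 1) && !(aW (x 1))) ∧ aP (x t2) = !(aP (x 1))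
  v : aC (x v2) = aL (x 1)
  c : aC (x t2) = aC (x 1)
  e : aE (x t2) = aE (x 1)
  e3 : aE (x 1) = true → aL (x 1) = 3
  wB : ∀ i : Fin 3, aB (x 1) = true → aE (x (w2 i)) = true
  wC : ∀ i : Fin 3, aC (x 1) = i.castSucc → aC (x (w2 i)) ≠ 3

/-- The finite window. -/
noncomputable def DD : Finset G2 := by
  classical
  exact {1, t2, g2, v2, w2 0, w2 1, w2 2, z2} ∪
    Finset.univ.image (fun i : Fin 99 => ((gens i, 1) : G2))

lemma Rule.congr {x x' : G2 → Al} (h : ∀ d ∈ DD, x d = x' d) (hx : Rule x) : Rule x' := by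
  classical
  have e1 : x 1 = x' 1 := h _ (by simp [DD])
  have et : x t2 = x' t2 := h _ (by simp [DD])
  have eg : x g2 = x' g2 := h _ (by simp [DD])
  have ev : x v2 = x' v2 := h _ (by simp [DD])
  have ez : x z2 = x' z2 := h _ (by simp [DD])
  have ew : ∀ i : Fin 3, x (w2 i) = x' (w2 i) := fun i => h _ (by
    have : i = 0 ∨ i = 1 ∨ i = 2 := by revert i; decide
    rcases this with rfl | rfl | rfl <;> simp [DD])
  have egs : ∀ i : Fin 99, x (gens i, 1) = x' (gens i, 1) := fun i => h _ (by
    unfold DD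
    rw [Finset.mem_union]
    exact Or.inr (Finset.mem_image.2 ⟨i, Finset.mem_univ _, rfl⟩))
  constructor
  · intro i; rw [← egs, ← e1]; exact hx.inv i
  · rw [← ez, ← e1]; exact hx.zz
  · rw [← ez, ← e1]; exact hx.w
  · rw [← e1]; exact hx.out
  · rw [← eg, ← e1]; exact hx.b
  · rw [← et, ← e1]; exact hx.s1
  · rw [← et, ← e1]; exact hx.s2
  · rw [← et, ← e1]; exact hx.s3
  · rw [← ev, ← e1]; exact hx.v
  · rw [← et, ← e1]; exact hx.c
  · rw [← et, ← e1]; exact hx.e
  · rw [← e1]; exact hx.e3
  · intro i; rw [← ew, ← e1]; exact hx.wB i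
  · intro i; rw [← ew, ← e1]; exact hx.wC i

/-- The subshift of finite type. -/
def XX : Set (G2 → Fin (Fintype.card Al)) :=
  {x | ∀ g, Rule (fun h => eA.symm (x (g * h)))}

lemma XX_sft : IsSFT XX :=
  isSFT_of_local DD (fun x => Rule (fun h => eA.symm (x h))) (by
    intro x x' h hx
    exact Rule.congr (fun d hd => by rw [h d hd]) hx)

/-- The code of an output. -/
def eY (b : Bool × Fin 3) : Fin 6 := ⟨2 * b.2.val + b.1.toNat, by
  have := b.2.2
  have h2 : b.1.toNat ≤ 1 := Bool.toNat_le _
  omega⟩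

lemma eY_inj : Function.Injective eY := by decide

/-- The output map on symbols. -/
noncomputable def outS (s : Fin (Fintype.card Al)) : Fin 6 := eY (aY (eA.symm s))

/-- The sofic subshift. -/
def YY : Set (G2 → Fin 6) := {y | ∃ x ∈ XX, y = fun g => outS (x g)}

lemma YY_sofic : IsSofic YY := by
  refine ⟨Fintype.card Al, XX, fun x g => outS (x.1 g), XX_sft, ?_, ?_, ?_⟩
  · refine continuous_pi fun g => ?_
    have h1 : Continuous (fun x : XX => x.1 g) := (continuous_apply g).comp continuous_subtype_val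
    exact (continuous_of_discreteTopology (f := outS)).comp h1
  · intro g x x' h
    funext t
    show outS (x'.1 t) = outS (x.1 (g⁻¹ * t))
    rw [h]
    rfl
  · ext y
    constructor
    · rintro ⟨x, rfl⟩
      exact ⟨x.1, x.2, rfl⟩
    · rintro ⟨x, hx, rfl⟩
      exact ⟨⟨x, hx⟩, rfl⟩

/-- The hierarchical structure of the points. -/
theorem YY_struct {y : G2 → Fin 6} (hy : y ∈ YY) :
    ∃ (M W : ℕ → ℤ → Bool) (u : ℕ → Fin 3), (∀ n, M 0 n = true) ∧
      (∀ j n, M (j + 1) n = (M j n && !(W j n))) ∧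
      (∀ j n, W j (n + 1) = xor (W j n) (M j (n + 1))) ∧
      (∀ j n, M j n = true → W j n = true → ∀ g : HG,
        y (g, Multiplicative.ofAdd n) = eY (decide (j % 2 = 1), u j)) ∧
      (∀ j (i : Fin 3), psi j i.val → u j ≠ i) ∧
      (∀ (g : HG) (n : Multiplicative ℤ), y (g, n) = y (1, n)) := by
  obtain ⟨x, hx, rfl⟩ := hy
  let X : HG → ℤ → Al := fun g n => eA.symm (x (g, Multiplicative.ofAdd n))
  have hr : ∀ g n, Rule (fun h => eA.symm (x ((g, Multiplicative.ofAdd n) * h))) :=
    fun g n => hx _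
  have hz : ∀ (g : HG) (n : ℤ), ((g, Multiplicative.ofAdd n) : G2) * z2 =
      (g, Multiplicative.ofAdd (n + 1)) := by
    intro g n
    simp [z2, Prod.mk_mul_mk, ofAdd_add]
  have hone : ∀ (g : HG) (n : ℤ), ((g, Multiplicative.ofAdd n) : G2) * 1 =
      (g, Multiplicative.ofAdd n) := fun g n => mul_one _
  have hmul : ∀ (g h : HG) (n : ℤ), ((g, Multiplicative.ofAdd n) : G2) * (h, 1) =
      (g * h, Multiplicative.ofAdd n) := by
    intro g h n
    simp [Prod.mk_mul_mk]
  -- translated rules
  have rinv : ∀ g n (i : Fin 99), aY (X (g * gens i) n) = aY (X g n) := by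
    intro g n i
    have := (hr g n).inv i
    rw [hmul, hone] at this
    exact this
  have rzz : ∀ g n, aZ (X g (n + 1)) = aZ (X g n) := by
    intro g n
    have := (hr g n).zz
    rw [hz, hone] at this
    exact this
  have rw1 : ∀ g n, aW (X g (n + 1)) = xor (aW (X g n)) (aM (X g (n + 1))) := by
    intro g n
    have := (hr g n).w
    rw [hz, hone] at this
    exact this
  have rout : ∀ g n, aM (X g n) = true → aW (X g n) = true →
      aL (X g n) = (aY (X g n)).2.castSucc ∧ aP (X g n) = (aY (X g n)).1 := by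
    intro g n
    have := (hr g n).out
    rw [hone] at this
    exact this
  have rb : ∀ g n, aB (X g n) = true ∨ aB (X (g * hγ) n) = true := by
    intro g n
    have := (hr g n).b
    rw [g2, hmul, hone] at this
    exact this
  have rt1 : ∀ g n, aB (X g n) = true → aM (X g n) = true ∧ aP (X g n) = false ∧
      aN (X (g * ht) n) = true := by
    intro g n
    have := (hr g n).s1
    rw [t2, hmul, hone] at this
    exact this
  have rt2 : ∀ g n, aN (X g n) = true → aN (X (g * ht) n) = true ∧ aB (X g n) = false := by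
    intro g n
    have := (hr g n).s2
    rw [t2, hmul, hone] at this
    exact this
  have rt3 : ∀ g n, aB (X (g * ht) n) = false →
      aM (X (g * ht) n) = (aM (X g n) && !(aW (X g n))) ∧
      aP (X (g * ht) n) = !(aP (X g n)) := by
    intro g n
    have := (hr g n).s3
    rw [t2, hmul, hone] at this
    exact this
  have rv : ∀ g n, aC (X (g * hv) n) = aL (X g n) := by
    intro g n
    have := (hr g n).v
    rw [v2, hmul, hone] at this
    exact this
  have rc : ∀ g n, aC (X (g * ht) n) = aC (X g n) := by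
    intro g n
    have := (hr g n).c
    rw [t2, hmul, hone] at this
    exact this
  have re : ∀ g n, aE (X (g * ht) n) = aE (X g n) := by
    intro g n
    have := (hr g n).e
    rw [t2, hmul, hone] at this
    exact this
  have re3 : ∀ g n, aE (X g n) = true → aL (X g n) = 3 := by
    intro g n
    have := (hr g n).e3
    rw [hone] at this
    exact this
  have rwB : ∀ g n (i : Fin 3), aB (X g n) = true → aE (X (g * hw i) n) = true := by
    intro g n i
    have := (hr g n).wB i
    rw [w2, hmul, hone] at this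
    exact this
  have rwC : ∀ g n (i : Fin 3), aC (X g n) = i.castSucc → aC (X (g * hw i) n) ≠ 3 := by
    intro g n i
    have := (hr g n).wC i
    rw [w2, hmul, hone] at this
    exact this
  have constZ : ∀ {α : Type} (f : ℤ → α), (∀ n, f (n + 1) = f n) → ∀ n, f n = f 0 := by
    intro α f hf n
    induction n using Int.induction_on with
    | zero => rfl
    | succ i ih => rw [hf, ih]
    | pred i ih =>
      rw [← ih]
      have := hf (-(i : ℤ) - 1)
      rw [sub_add_cancel] at this
      exact this.symm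
  have cZ : ∀ g n, aZ (X g n) = aZ (X g 0) := fun g => constZ _ (rzz g)
  have cP : ∀ g n, aP (X g n) = aP (X g 0) := fun g n => congrArg (fun a => a.1.1) (cZ g n)
  have cB : ∀ g n, aB (X g n) = aB (X g 0) := fun g n => congrArg (fun a => a.1.2) (cZ g n)
  have cL : ∀ g n, aL (X g n) = aL (X g 0) := fun g n => congrArg (fun a => a.2.2.1) (cZ g n)
  have cY : ∀ g n, aY (X g n) = aY (X 1 n) := fun g n => const_of_gens (fun g => aY (X g n))
    (fun g s => (rinv g n s).symm) g
  have cC : ∀ g n (j : ℕ), aC (X (g * ht ^ j) n) = aC (X g n) := by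
    intro g n j
    induction j with
    | zero => rw [pow_zero, mul_one]
    | succ j ih => rw [pow_succ, ← mul_assoc, rc, ih]
  have cC' : ∀ g n (j : ℕ), aC (X (g * (ht ^ j)⁻¹) n) = aC (X g n) := by
    intro g n j
    rw [← cC (g * (ht ^ j)⁻¹) n j, inv_mul_cancel_right]
  have cE : ∀ g n (j : ℕ), aE (X (g * ht ^ j) n) = aE (X g n) := by
    intro g n j
    induction j with
    | zero => rw [pow_zero, mul_one]
    | succ j ih => rw [pow_succ, ← mul_assoc, re, ih]
  -- the chain
  obtain ⟨k0, hk0⟩ : ∃ k0, aB (X k0 0) = true := by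
    rcases rb 1 0 with h | h
    · exact ⟨_, h⟩
    · exact ⟨_, h⟩
  have hkB : ∀ n, aB (X k0 n) = true := fun n => by rw [cB]; exact hk0
  have hN : ∀ (j : ℕ) n, aN (X (k0 * ht ^ (j + 1)) n) = true := by
    intro j n
    induction j with
    | zero => rw [zero_add, pow_one]; exact (rt1 k0 n (hkB n)).2.2
    | succ j ih => rw [pow_succ, ← mul_assoc]; exact (rt2 _ n ih).1
  have hnB : ∀ (j : ℕ) n, aB (X (k0 * ht ^ (j + 1)) n) = false := fun j n => (rt2 _ n (hN j n)).2
  have hstep : ∀ (j : ℕ) n, aM (X (k0 * ht ^ (j + 1)) n) =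
      (aM (X (k0 * ht ^ j) n) && !(aW (X (k0 * ht ^ j) n))) ∧
      aP (X (k0 * ht ^ (j + 1)) n) = !(aP (X (k0 * ht ^ j) n)) := by
    intro j n
    have h1 := hnB j n
    rw [pow_succ, ← mul_assoc] at h1 ⊢
    exact rt3 _ n h1
  have hpar : ∀ (j : ℕ) n, aP (X (k0 * ht ^ j) n) = decide (j % 2 = 1) := by
    intro j n
    induction j with
    | zero =>
      rw [pow_zero, mul_one]
      exact (rt1 k0 n (hkB n)).2.1
    | succ j ih =>
      rw [(hstep j n).2, ih]
      by_cases h : j % 2 = 1
      · have : ¬ (j + 1) % 2 = 1 := by omega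
        simp [h, this]
      · have : (j + 1) % 2 = 1 := by omega
        simp [h, this]
  -- the labels
  let M : ℕ → ℤ → Bool := fun j n => aM (X (k0 * ht ^ j) n)
  let W : ℕ → ℤ → Bool := fun j n => aW (X (k0 * ht ^ j) n)
  have hM0 : ∀ n, M 0 n = true := by
    intro n
    show aM (X (k0 * ht ^ 0) n) = true
    rw [pow_zero, mul_one]
    exact (rt1 k0 n (hkB n)).1
  have hM1 : ∀ j n, M (j + 1) n = (M j n && !(W j n)) := fun j n => (hstep j n).1
  have hW1 : ∀ j n, W j (n + 1) = xor (W j n) (M j (n + 1)) := fun j n => rw1 _ _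
  have hlab : ∀ j, ∃ i : Fin 3, aL (X (k0 * ht ^ j) 0) = i.castSucc := by
    intro j
    -- a position of level exactly `j`
    obtain ⟨c, hc⟩ := Pool.Agent.H715R3.Sof.markers hM0 hM1 hW1 j
    obtain ⟨c', hc'⟩ := Pool.Agent.H715R3.Sof.markers hM0 hM1 hW1 (j + 1)
    have hMc : ∃ n, M j n = true ∧ W j n = true := by
      by_contra hcon
      push Not at hcon
      have hall : ∀ n, M (j + 1) n = M j n := by
        intro n
        rw [hM1]
        cases h : M j n with
        | false => rfl
        | true =>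
          have := Bool.eq_false_iff.2 (hcon n h)
          rw [this]; rfl
      have a1 : M (j + 1) c = true := by rw [hall]; exact (hc c).2 (by simp)
      have a2 : M (j + 1) (c + 2 ^ j) = true := by rw [hall]; exact (hc _).2 (by simp)
      rw [hc'] at a1 a2
      have a3 := dvd_sub a2 a1
      have e : c + 2 ^ j - c' - (c - c') = 2 ^ j * 1 := by ring
      rw [e, pow_succ] at a3
      have hd : (2 : ℤ) ^ j ≠ 0 := by positivity
      have a4 := (mul_dvd_mul_iff_left hd).1 a3
      omega
    obtain ⟨n, h1, h2⟩ := hMc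
    refine ⟨(aY (X (k0 * ht ^ j) n)).2, ?_⟩
    rw [← cL _ n]
    exact (rout _ n h1 h2).1
  choose u hu using hlab
  refine ⟨M, W, u, hM0, hM1, hW1, ?_, ?_, ?_⟩
  · intro j n h1 h2 g
    have h3 := rout _ n h1 h2
    rw [cL, hu, hpar, cY] at h3
    show outS (x (g, Multiplicative.ofAdd n)) = _
    show eY (aY (X g n)) = _
    rw [cY]
    congr 1
    ext1
    · exact h3.2.symm
    · exact (Fin.castSucc_injective _ h3.1).symm
  · intro j i hpsi hcon
    have h1 : aC (X (k0 * (ht ^ j * (hv * (ht ^ j)⁻¹))) 0) = i.castSucc := by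
      rw [← mul_assoc, ← mul_assoc, cC', rv, hu, hcon]
    have h2 := rwC _ 0 i h1
    rw [mul_assoc, ← comm_rel hpsi, ← mul_assoc] at h2
    apply h2
    rw [← mul_assoc, ← mul_assoc, cC', rv]
    apply re3
    rw [cE]
    exact rwB k0 0 i hk0
  · intro g n
    show eY (aY (X g (Multiplicative.toAdd n))) = eY (aY (X 1 (Multiplicative.toAdd n)))
    rw [cY]

end Pool.Agent.L5helper51.MD
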