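import Pool.Agent.L5helper51.MD.Dicho

set_option autoImplicit false

/-!
The class of `{0, 1, 2}`-valued diagonally non-computable functions does not lie above the class
of `{0, 1}`-valued ones.
-/

namespace Pool.Agent.L5helper51.MD

open Encodable Nat.Partrec
open Pool.Agent.H715R3.Medv (stg stg_primrec pre pre_getElem? pre_length pre_prefix prefix_getElem?
  pre_eq_map ball pow_primrec)
open Pool.Agent.H715R3.Sof (seg MedvedevLe)
open Pool.Agent.Y602.ST (DNR2 dnr_not_computable)

/-- The `i`-th ternary digit of `c`. -/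
def d3 (c i : ℕ) : ℕ := (c / 3 ^ i) % 3

lemma d3_lt (c i : ℕ) : d3 c i < 3 := Nat.mod_lt _ (by norm_num)

lemma exists_d3 (x : ℕ → ℕ) (hx : ∀ i, x i < 3) (t : ℕ) :
    ∃ c < 3 ^ t, ∀ i < t, d3 c i = x i := by
  induction t with
  | zero => exact ⟨0, by simp, fun i hi => absurd hi (by omega)⟩
  | succ t ih =>
    obtain ⟨c, hc, h⟩ := ih
    have hb := hx t
    have h2 : 3 ^ t * x t ≤ 3 ^ t * 2 := Nat.mul_le_mul_left _ (by omega)
    refine ⟨c + 3 ^ t * x t, by rw [pow_succ]; omega, fun i hi => ?_⟩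
    rcases Nat.lt_succ_iff_lt_or_eq.1 hi with h1 | rfl
    · rw [← h i h1]
      unfold d3
      obtain ⟨r, rfl⟩ : ∃ r, t = i + (r + 1) := ⟨t - i - 1, by omega⟩
      have e : c + 3 ^ (i + (r + 1)) * x (i + (r + 1)) =
          c + 3 ^ i * (3 * (3 ^ r * x (i + (r + 1)))) := by
        rw [pow_add, pow_succ]; ring
      rw [e, Nat.add_mul_div_left _ _ (by positivity)]
      omega
    · unfold d3
      rw [Nat.add_mul_div_left _ _ (by positivity), Nat.div_eq_of_lt hc]
      omega

/-- König's lemma for ternary sequences. -/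
lemma konig3 (Φ : List ℕ → Prop) (hm : ∀ σ τ, σ <+: τ → Φ τ → Φ σ)
    (hex : ∀ M, ∃ z : ℕ → ℕ, (∀ n, z n < 3) ∧ Φ (pre z M)) :
    ∃ z : ℕ → ℕ, (∀ n, z n < 3) ∧ ∀ M, Φ (pre z M) := by
  let t : ℕ → Set (ℕ → Fin 3) := fun M => {z | Φ (pre (fun i => (z i).val) M)}
  have hcl : ∀ M, IsClosed (t M) := by
    intro M
    have hc : Continuous (fun (z : ℕ → Fin 3) (i : Fin M) => z i.val) := by fun_prop
    have : t M = (fun (z : ℕ → Fin 3) (i : Fin M) => z i.val) ⁻¹'
        {w | Φ (List.ofFn fun j => (w j).val)} := rfl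
    rw [this]
    exact (isClosed_discrete _).preimage hc
  have hne : ∀ M, (t M).Nonempty := by
    intro M
    obtain ⟨z, hz, hΦ⟩ := hex M
    exact ⟨fun i => ⟨z i, hz i⟩, hΦ⟩
  have hanti : ∀ M, t (M + 1) ⊆ t M := fun M z hz => hm _ _ (pre_prefix _ (Nat.le_succ M)) hz
  obtain ⟨z, hz⟩ := IsCompact.nonempty_iInter_of_sequence_nonempty_isCompact_isClosed t hanti hne
    ((hcl 0).isCompact) hcl
  exact ⟨fun i => (z i).val, fun n => (z n).2, fun M => Set.mem_iInter.1 hz M⟩

/-- `c` avoids `d` below `L`. -/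
def Av (L c d : ℕ) : Prop := ∀ e < L, d3 c e ≠ d3 d e

/-- `d` agrees with the diagonal at stage `L`. -/
def Cp (L d : ℕ) : Prop := ∀ e < L, stg e L = some (d3 d e) ∨ stg e L = Option.none ∨
  ¬ (stg e L).getD 0 < 3

lemma d3_primrec : Primrec₂ d3 := by
  have h1 : Primrec (fun p : ℕ × ℕ => 3 ^ p.2) :=
    pow_primrec.comp ((Primrec.const 3).pair Primrec.snd)
  exact Primrec.nat_mod.comp (Primrec.nat_div.comp Primrec.fst h1) (Primrec.const 3)

/-- Boolean form of `Av`. -/
def avb (p : ℕ × (ℕ × ℕ)) : Bool :=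
  (List.range p.1).all (fun e => !(decide (d3 p.2.1 e = d3 p.2.2 e)))

lemma avb_iff (L c d : ℕ) : avb (L, (c, d)) = true ↔ Av L c d := by
  unfold avb Av
  simp

/-- Boolean form of `Cp`. -/
def cpb (p : ℕ × ℕ) : Bool :=
  (List.range p.1).all (fun e => decide (stg e p.1 = some (d3 p.2 e)) ||
    (decide (stg e p.1 = Option.none) || !(decide ((stg e p.1).getD 0 < 3))))

lemma cpb_iff (L d : ℕ) : cpb (L, d) = true ↔ Cp L d := by
  unfold cpb Cp
  simp

lemma all_primrec {α : Type*} [Primcodable α] {q : α → ℕ → Bool} (hq : Primrec₂ q) {N : α → ℕ}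
    (hN : Primrec N) : Primrec (fun a => (List.range (N a)).all (q a)) := by
  have h1 : PrimrecRel (fun (e : ℕ) (a : α) => q a e = true) :=
    Primrec.eq.comp (hq.comp Primrec.snd Primrec.fst) (Primrec.const true)
  have h2 := (ball h1 hN).decide
  refine Primrec.of_eq h2 ?_
  intro a
  rw [Bool.eq_iff_iff]
  simp

lemma avb_primrec : Primrec avb := by
  refine all_primrec ?_ Primrec.fst
  have h1 : Primrec (fun q : (ℕ × (ℕ × ℕ)) × ℕ => d3 q.1.2.1 q.2) :=
    d3_primrec.comp (Primrec.fst.comp (Primrec.snd.comp Primrec.fst)) Primrec.snd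
  have h2 : Primrec (fun q : (ℕ × (ℕ × ℕ)) × ℕ => d3 q.1.2.2 q.2) :=
    d3_primrec.comp (Primrec.snd.comp (Primrec.snd.comp Primrec.fst)) Primrec.snd
  exact Primrec.not.comp (Primrec.eq.comp h1 h2).decide

lemma cpb_primrec : Primrec cpb := by
  refine all_primrec ?_ Primrec.fst
  have h1 : Primrec (fun q : (ℕ × ℕ) × ℕ => stg q.2 q.1.1) :=
    stg_primrec.comp Primrec.snd (Primrec.fst.comp Primrec.fst)
  have h2 : Primrec (fun q : (ℕ × ℕ) × ℕ => some (d3 q.1.2 q.2)) :=
    Primrec.option_some.comp (d3_primrec.comp (Primrec.snd.comp Primrec.fst) Primrec.snd)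
  exact Primrec.or.comp (Primrec.eq.comp h1 h2).decide (Primrec.or.comp
    (Primrec.eq.comp h1 (Primrec.const Option.none)).decide
    (Primrec.not.comp (Primrec.nat_lt.comp (Primrec.option_getD.comp h1 (Primrec.const 0))
      (Primrec.const 3)).decide))

/-- Bounded search. -/
def exB (q : ℕ → Bool) (N : ℕ) : Bool := Nat.rec false (fun j acc => acc || q j) N

lemma exB_iff (q : ℕ → Bool) (N : ℕ) : exB q N = true ↔ ∃ j < N, q j = true := by
  induction N with
  | zero => simp [exB]
  | succ N ih =>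
    have : exB q (N + 1) = (exB q N || q N) := rfl
    rw [this, Bool.or_eq_true, ih]
    constructor
    · rintro (⟨j, hj, h⟩ | h)
      · exact ⟨j, by omega, h⟩
      · exact ⟨N, by omega, h⟩
    · rintro ⟨j, hj, h⟩
      rcases Nat.lt_succ_iff_lt_or_eq.1 hj with h1 | rfl
      · exact Or.inl ⟨j, h1, h⟩
      · exact Or.inr h

lemma exB_computable {α : Type*} [Primcodable α] {q : α → ℕ → Bool} (hq : Computable₂ q)
    {N : α → ℕ} (hN : Computable N) : Computable (fun a => exB (q a) (N a)) := by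
  have h3 : Computable₂ (fun (a : α) (p : ℕ × Bool) => p.2 || q a p.1) :=
    Primrec.or.to_comp.comp (Computable.snd.comp Computable.snd)
      (hq.comp Computable.fst (Computable.fst.comp Computable.snd))
  exact Computable.nat_rec hN (Computable.const false) h3

lemma three_pow_computable {α : Type*} [Primcodable α] {N : α → ℕ}
    (hN : Computable N) : Computable (fun a => 3 ^ N a) := by
  have h : Computable (fun n : ℕ => 3 ^ n) :=
    (pow_primrec.comp ((Primrec.const 3).pair Primrec.id)).to_comp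
  exact h.comp hN

/-- The string of ternary digits. -/
def ps (c L : ℕ) : List ℕ := pre (d3 c) L

lemma ps_primrec : Primrec₂ ps := by
  have h : Primrec (fun p : ℕ × ℕ => (List.range p.2).map (fun i => d3 p.1 i)) := by
    refine Primrec.list_map (Primrec.list_range.comp Primrec.snd) ?_
    exact d3_primrec.comp (Primrec.fst.comp Primrec.fst) Primrec.snd
  refine Primrec.of_eq h ?_
  rintro ⟨c, L⟩
  show _ = pre (d3 c) L
  rw [pre_eq_map]

/-- The value `i` is read at `n`. -/
def rd (f : List ℕ → List ℕ) (n i : ℕ) (σ : List ℕ) : Bool := decide ((f σ)[n]? = some i)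

/-- Inner search. -/
def inn (f : List ℕ → List ℕ) (n i L d : ℕ) : Bool :=
  exB (fun c => avb (L, (c, d)) && rd f n i (ps c L)) (3 ^ L)

/-- The test. -/
def rb (f : List ℕ → List ℕ) (i n L : ℕ) : Bool :=
  !(exB (fun d => cpb (L, d) && !(inn f n i L d)) (3 ^ L))

lemma rb_iff (f : List ℕ → List ℕ) (i n L : ℕ) : rb f i n L = true ↔
    ∀ d < 3 ^ L, Cp L d → ∃ c < 3 ^ L, Av L c d ∧ (f (ps c L))[n]? = some i := by
  unfold rb
  rw [Bool.not_eq_true', Bool.eq_false_iff, ne_eq, exB_iff]
  have hin : ∀ d, inn f n i L d = true ↔ ∃ c < 3 ^ L, Av L c d ∧ (f (ps c L))[n]? = some i := by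
    intro d
    unfold inn
    rw [exB_iff]
    simp only [Bool.and_eq_true, avb_iff, rd, decide_eq_true_eq]
  constructor
  · intro h d hd hc
    by_contra hcon
    apply h
    refine ⟨d, hd, ?_⟩
    rw [Bool.and_eq_true, cpb_iff, Bool.not_eq_true', Bool.eq_false_iff, ne_eq, hin]
    exact ⟨hc, hcon⟩
  · rintro h ⟨d, hd, hb⟩
    rw [Bool.and_eq_true, cpb_iff, Bool.not_eq_true', Bool.eq_false_iff, ne_eq, hin] at hb
    exact hb.2 (h d hd hb.1)

lemma rd_computable {f : List ℕ → List ℕ} (hf : Computable f) (i : ℕ) :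
    Computable (fun p : ℕ × List ℕ => rd f p.1 i p.2) := by
  have h1 : Computable (fun p : ℕ × List ℕ => (f p.2)[p.1]?) :=
    Computable.list_getElem?.comp (hf.comp Computable.snd) Computable.fst
  exact (Primrec.eq.decide : Primrec₂ (fun a b : Option ℕ => decide (a = b))).to_comp.comp h1
    (Computable.const (some i))

seal avb cpb ps rd exB in
lemma inn_computable {f : List ℕ → List ℕ} (hf : Computable f) (i : ℕ) :
    Computable (fun p : (ℕ × ℕ) × ℕ => inn f p.1.1 i p.1.2 p.2) := by
  have hrd := rd_computable hf i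
  have h1 : Computable₂ (fun (p : (ℕ × ℕ) × ℕ) (c : ℕ) =>
      (avb (p.1.2, (c, p.2)) && rd f p.1.1 i (ps c p.1.2))) := by
    have a1 : Computable (fun q : ((ℕ × ℕ) × ℕ) × ℕ => ((q.1.1.2, (q.2, q.1.2)) : ℕ × (ℕ × ℕ))) :=
      (Computable.snd.comp (Computable.fst.comp Computable.fst)).pair
        (Computable.snd.pair (Computable.snd.comp Computable.fst))
    have a2 : Computable (fun q : ((ℕ × ℕ) × ℕ) × ℕ => avb (q.1.1.2, (q.2, q.1.2))) :=
      avb_primrec.to_comp.comp a1
    have a3 : Computable (fun q : ((ℕ × ℕ) × ℕ) × ℕ => ps q.2 q.1.1.2) :=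
      ps_primrec.to_comp.comp Computable.snd
        (Computable.snd.comp (Computable.fst.comp Computable.fst))
    have a5 : Computable (fun q : ((ℕ × ℕ) × ℕ) × ℕ => ((q.1.1.1, ps q.2 q.1.1.2) : ℕ × List ℕ)) :=
      (Computable.fst.comp (Computable.fst.comp Computable.fst)).pair a3
    have a6 := hrd.comp a5
    have a4 : Computable (fun q : ((ℕ × ℕ) × ℕ) × ℕ => rd f q.1.1.1 i (ps q.2 q.1.1.2)) := a6
    exact Primrec.and.to_comp.comp a2 a4
  have h2 := exB_computable h1 (three_pow_computable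
    (Computable.snd.comp Computable.fst : Computable (fun p : (ℕ × ℕ) × ℕ => p.1.2)))
  unfold inn
  exact h2

seal avb cpb ps rd exB inn in
lemma rb_computable {f : List ℕ → List ℕ} (hf : Computable f) (i : ℕ) : Computable₂ (rb f i) := by
  have hin := inn_computable hf i
  have h2 : Computable₂ (fun (p : ℕ × ℕ) (d : ℕ) =>
      (cpb (p.2, d) && !(inn f p.1 i p.2 d))) := by
    have a1 : Computable (fun q : (ℕ × ℕ) × ℕ => cpb (q.1.2, q.2)) :=
      cpb_primrec.to_comp.comp ((Computable.snd.comp Computable.fst).pair Computable.snd)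
    have a2 : Computable (fun q : (ℕ × ℕ) × ℕ => !(inn f q.1.1 i q.1.2 q.2)) :=
      Primrec.not.to_comp.comp hin
    exact Primrec.and.to_comp.comp a1 a2
  have h3 := exB_computable h2 (three_pow_computable (Computable.snd (α := ℕ) (β := ℕ)))
  have h4 : Computable (fun p : ℕ × ℕ => rb f i p.1 p.2) := by
    unfold rb
    exact Primrec.not.to_comp.comp h3
  exact h4

lemma stg_mono {e s t v : ℕ} (h : s ≤ t) (hs : stg e s = some v) : stg e t = some v :=
  Option.mem_def.1 (Code.evaln_mono h (Option.mem_def.2 hs))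

lemma psi_unique {e v w : ℕ} (h : psi e v) (k : psi e w) : v = w := by
  rw [psi_iff] at h k
  exact Part.mem_unique h k

lemma seg_eq_pre (y : ℕ → ℕ) (m : ℕ) : seg y m = pre y m := rfl

/-- A positive test gives a correct value. -/
lemma rb_sound {f : List ℕ → List ℕ} (hmono : ∀ σ τ : List ℕ, σ <+: τ → f σ <+: f τ)
    (hred : ∀ y ∈ DNR3, ∃ x ∈ DNR2, ∀ n : ℕ, ∃ m : ℕ, ∀ i < n, (f (seg y m))[i]? = some (x i))
    {n L i : ℕ} (h : rb f i n L = true) : ∃ x ∈ DNR2, x n = i := by
  classical
  rw [rb_iff] at h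
  let g : ℕ → ℕ := fun e => if h : ∃ v < 3, psi e v then h.choose else 0
  have hg3 : ∀ e, g e < 3 := by
    intro e
    simp only [g]
    split_ifs with h
    · exact h.choose_spec.1
    · norm_num
  have hg : ∀ e v, v < 3 → psi e v → g e = v := by
    intro e v hv hp
    have hx : ∃ v < 3, psi e v := ⟨v, hv, hp⟩
    simp only [g]
    rw [dif_pos hx]
    exact psi_unique hx.choose_spec.2 hp
  obtain ⟨d, hd, hdg⟩ := exists_d3 g hg3 L
  have hcp : Cp L d := by
    intro e he
    cases hs : stg e L with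
    | none => exact Or.inr (Or.inl rfl)
    | some v =>
      by_cases hv : v < 3
      · left
        rw [hdg e he, hg e v hv ⟨L, hs⟩]
      · right; right
        simpa using hv
  obtain ⟨c, -, hav, hfc⟩ := h d hd hcp
  let y : ℕ → ℕ := fun e => if e < L then d3 c e else if psi e 0 then 1 else 0
  have hy : y ∈ DNR3 := by
    refine ⟨fun e => ?_, fun e he => ?_⟩
    · simp only [y]
      split_ifs
      · exact d3_lt _ _
      · norm_num
      · norm_num
    · rw [← psi_iff] at he
      simp only [y] at he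
      split_ifs at he with h1 h2
      · have := hg e _ (d3_lt c e) he
        rw [← hdg e h1] at this
        exact hav e h1 this.symm
      · exact absurd (psi_unique h2 he) (by norm_num)
      · exact h2 he
  obtain ⟨x, hx, hxr⟩ := hred y hy
  refine ⟨x, hx, ?_⟩
  have hps : ps c L = pre y L := by
    unfold ps
    apply List.ext_getElem?
    intro i
    rw [pre_getElem?, pre_getElem?]
    by_cases hi : i < L
    · simp [hi, y]
    · simp [hi]
  obtain ⟨m, hm⟩ := hxr (n + 1)
  have h1 := hm n (by omega)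
  rw [seg_eq_pre] at h1
  rw [hps] at hfc
  have h2 := prefix_getElem? (hmono _ _ (pre_prefix y (le_max_left m L))) h1
  have h3 := prefix_getElem? (hmono _ _ (pre_prefix y (le_max_right m L))) hfc
  rw [h2] at h3
  exact Option.some.inj h3

/-- The third value. -/
def th (a b : ℕ) : ℕ := if a ≠ 0 ∧ b ≠ 0 then 0 else if a ≠ 1 ∧ b ≠ 1 then 1 else 2

lemma th_spec (a b : ℕ) : th a b < 3 ∧ th a b ≠ a ∧ th a b ≠ b := by
  unfold th
  split_ifs <;> omega

/-- Some test is positive. -/
lemma rb_complete {f : List ℕ → List ℕ} (hmono : ∀ σ τ : List ℕ, σ <+: τ → f σ <+: f τ)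
    (hred : ∀ y ∈ DNR3, ∃ x ∈ DNR2, ∀ n : ℕ, ∃ m : ℕ, ∀ i < n, (f (seg y m))[i]? = some (x i))
    (n : ℕ) : ∃ L, (rb f 0 n L || rb f 1 n L) = true := by
  have h1 : ∃ L, ∀ z : ℕ → ℕ, (∀ n, z n < 3) → (∀ e < L, stg e L ≠ some (z e)) →
      ∃ v < 2, (f (pre z L))[n]? = some v := by
    by_contra hcon
    push Not at hcon
    let Φ : List ℕ → Prop := fun τ => (∀ e < τ.length, stg e τ.length ≠ τ[e]?) ∧
      ∀ v < 2, (f τ)[n]? ≠ some v
    obtain ⟨z, hz, hΦ⟩ := konig3 Φ
      (by
        rintro σ τ h ⟨h1, h2⟩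
        refine ⟨fun e he hs => ?_, fun v hv hs => h2 v hv (prefix_getElem? (hmono _ _ h) hs)⟩
        have hl := h.length_le
        rw [List.getElem?_eq_getElem he] at hs
        apply h1 e (by omega)
        rw [stg_mono hl hs]
        symm
        exact prefix_getElem? h (List.getElem?_eq_getElem he))
      (by
        intro M
        obtain ⟨z, hz, hk, hb⟩ := hcon M
        refine ⟨z, hz, fun e he => ?_, fun v hv => hb v hv⟩
        rw [pre_length] at he ⊢
        rw [pre_getElem?, if_pos he]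
        exact hk e he)
    have hzD : z ∈ DNR3 := by
      refine ⟨hz, fun e he => ?_⟩
      rw [← psi_iff] at he
      obtain ⟨s, hs⟩ := he
      have h2 := (hΦ (max s (e + 1))).1 e (by
        rw [pre_length]; exact lt_of_lt_of_le (Nat.lt_succ_self e) (le_max_right _ _))
      rw [pre_length, pre_getElem?, if_pos (lt_of_lt_of_le (Nat.lt_succ_self e)
        (le_max_right _ _)), stg_mono (le_max_left _ _) hs] at h2
      exact h2 rfl
    obtain ⟨x, hx, hxr⟩ := hred z hzD
    obtain ⟨m, hm⟩ := hxr (n + 1)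
    exact (hΦ m).2 (x n) (hx.1 n) (hm n (by omega))
  obtain ⟨L, hL⟩ := h1
  refine ⟨L, ?_⟩
  by_contra hcon
  rw [Bool.or_eq_true, not_or, rb_iff, rb_iff] at hcon
  obtain ⟨h0, h1⟩ := hcon
  push Not at h0 h1
  obtain ⟨d0, hd0, hc0, hn0⟩ := h0
  obtain ⟨d1, hd1, hc1, hn1⟩ := h1
  obtain ⟨c, hc, hcd⟩ := exists_d3 (fun e => th (d3 d0 e) (d3 d1 e))
    (fun e => (th_spec _ _).1) L
  obtain ⟨v, hv, hf⟩ := hL (d3 c) (d3_lt c) (by
    intro e he hs
    rcases hc0 e he with h | h | h
    · rw [h] at hs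
      have := Option.some.inj hs
      rw [hcd e he] at this
      exact (th_spec _ _).2.1 this.symm
    · rw [h] at hs
      exact absurd hs (by simp)
    · rw [hs] at h
      exact h (by simpa using d3_lt c e))
  rcases (by omega : v = 0 ∨ v = 1) with rfl | rfl
  · exact hn0 c hc (fun e he => by rw [hcd e he]; exact (th_spec _ _).2.1) hf
  · exact hn1 c hc (fun e he => by rw [hcd e he]; exact (th_spec _ _).2.2) hf

/-- `DNR₂` does not reduce to `DNR₃`. -/
theorem dnr_sep : ¬ MedvedevLe DNR2 DNR3 := by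
  rintro ⟨f, hf, hmono, hred⟩
  have hex := rb_complete hmono hred
  let L0 : ℕ → ℕ := fun n => Nat.find (hex n)
  have hor : Computable₂ (fun n L => rb f 0 n L || rb f 1 n L) :=
    Primrec.or.to_comp.comp (rb_computable hf 0) (rb_computable hf 1)
  have hL0 : Computable L0 := by
    have hp : Partrec (fun n : ℕ => Nat.rfind ((fun s => rb f 0 n s || rb f 1 n s : ℕ → Bool) :
        ℕ →. Bool)) := Partrec.rfind hor.partrec₂
    refine Partrec.of_eq_tot hp ?_
    intro n
    rw [Nat.mem_rfind]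
    refine ⟨?_, fun {m} hm => ?_⟩
    · have := Nat.find_spec (hex n)
      show true ∈ Part.some (rb f 0 n (L0 n) || rb f 1 n (L0 n))
      rw [Part.mem_some_iff]
      exact this.symm
    · have := Nat.find_min (hex n) hm
      show false ∈ Part.some (rb f 0 n m || rb f 1 n m)
      rw [Part.mem_some_iff]
      simp only [Bool.not_eq_true] at this
      exact this.symm
  let sep : ℕ → ℕ := fun n => bif rb f 0 n (L0 n) then 0 else 1
  have hsep : Computable sep :=
    Computable.cond ((rb_computable hf 0).comp Computable.id hL0) (Computable.const 0)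
      (Computable.const 1)
  have hval : ∀ n, ∃ x ∈ DNR2, x n = sep n := by
    intro n
    cases h : rb f 0 n (L0 n) with
    | true =>
      obtain ⟨x, hx, hxn⟩ := rb_sound hmono hred h
      exact ⟨x, hx, by simp only [sep, h, cond_true]; exact hxn⟩
    | false =>
      have h1 : rb f 1 n (L0 n) = true := by
        have := Nat.find_spec (hex n)
        rw [Bool.or_eq_true] at this
        rcases this with h2 | h2
        · have h3 : rb f 0 n (L0 n) = true := h2
          rw [h] at h3
          exact absurd h3 (by decide)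
        · exact h2
      obtain ⟨x, hx, hxn⟩ := rb_sound hmono hred h1
      exact ⟨x, hx, by simp only [sep, h, cond_false]; exact hxn⟩
  have hmem : sep ∈ DNR2 := by
    refine ⟨fun e => ?_, fun e => ?_⟩
    · obtain ⟨x, hx, hxe⟩ := hval e
      rw [← hxe]; exact hx.1 e
    · obtain ⟨x, hx, hxe⟩ := hval e
      rw [← hxe]; exact hx.2 e
  exact dnr_not_computable hmem hsep

end Pool.Agent.L5helper51.MD
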