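import Pool.Agent.L5helper51.MD.Pres

set_option autoImplicit false

/-!
The group elements of the involutions, and a map from the group to `Om`.
-/

namespace Pool.Agent.L5helper51.MD

/-- The group elements of the involutions. -/
def hl (l : Fin 7) : HG := ev (dl l)

lemma repG_hl (l : Fin 7) : repG (hl l) = dg (sg l) := by
  rw [hl, repG_ev, rw_dl]

/-- The subgroup generated by them. -/
def HH : Subgroup HG := Subgroup.closure (Set.range hl)

lemma hl_mem (l : Fin 7) : hl l ∈ HH := Subgroup.subset_closure ⟨l, rfl⟩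

/-- The starting point. -/
def o0 : Om := bs 0

lemma exists_state {h : HG} (hh : h ∈ HH) :
    ∃ o : Om, ∀ v : Fin 3 → VV, repG h v 0 o0 [] = v 0 o [] := by
  have key : ∀ (g : HG) (l : Fin 7), (∃ o : Om, ∀ v : Fin 3 → VV, repG g v 0 o0 [] = v 0 o []) →
      (∃ o : Om, ∀ v : Fin 3 → VV, repG g (repG (hl l) v) 0 o0 [] = v 0 o []) := by
    rintro g l ⟨o, ho⟩
    refine ⟨sg l o, fun v => ?_⟩
    rw [ho, repG_hl]
    show dgf (sg l) v 0 o [] = _
    have h02 : ¬ ((0 : Fin 3) = 2) := by decide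
    simp only [dgf, h02, if_false]
  unfold HH at hh
  induction hh using Subgroup.closure_induction_right with
  | one =>
    exact ⟨o0, fun v => by rw [map_one, Equiv.Perm.one_apply]⟩
  | mul_right g _ x hg ih =>
    obtain ⟨l, rfl⟩ := hg
    obtain ⟨o, ho⟩ := key g l ih
    exact ⟨o, fun v => by rw [map_mul, Equiv.Perm.mul_apply]; exact ho v⟩
  | mul_inv_cancel g _ x hg ih =>
    obtain ⟨l, rfl⟩ := hg
    obtain ⟨o, ho⟩ := key g l ih
    refine ⟨o, fun v => ?_⟩
    have : repG (hl l)⁻¹ = repG (hl l) := by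
      rw [map_inv, repG_hl, dg_inv, sg_inv]
    rw [map_mul, Equiv.Perm.mul_apply, this]; exact ho v

/-- The `HH`-component. -/
noncomputable def hc (g : HG) : HG := (QuotientGroup.mk g : HG ⧸ HH).out⁻¹ * g

lemma hc_mem (g : HG) : hc g ∈ HH := by
  obtain ⟨h, hh⟩ := QuotientGroup.mk_out_eq_mul HH g
  rw [hc, hh, mul_inv_rev, mul_assoc, inv_mul_cancel, mul_one]
  exact HH.inv_mem h.2

lemma hc_mul (g x : HG) (hx : x ∈ HH) : hc (g * x) = hc g * x := by
  have h : (QuotientGroup.mk (g * x) : HG ⧸ HH) = QuotientGroup.mk g := by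
    rw [QuotientGroup.mk_mul_of_mem g hx]
  rw [hc, hc, h, mul_assoc]

/-- The state of a group element. -/
noncomputable def st (g : HG) : Om := (exists_state (hc_mem g)).choose

lemma st_spec (g : HG) (v : Fin 3 → VV) : repG (hc g) v 0 o0 [] = v 0 (st g) [] :=
  (exists_state (hc_mem g)).choose_spec v

lemma om_ext {o o' : Om} (h : ∀ v : Fin 3 → VV, v 0 o [] = v 0 o' []) : o = o' := by
  classical
  have := h (fun _ x _ => if x = o' then 1 else 0)
  simp only [if_true] at this
  by_contra hne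
  rw [if_neg hne] at this
  exact absurd this (by decide)

/-- The state map is equivariant. -/
theorem st_mul (g : HG) {u : HG} (hu : u ∈ HH) {σ : Equiv.Perm Om} (h : repG u = dg σ) :
    st (g * u) = σ (st g) := by
  apply om_ext
  intro v
  rw [← st_spec (g * u) v, hc_mul g u hu, map_mul, Equiv.Perm.mul_apply, st_spec, h]
  show dgf σ v 0 (st g) [] = _
  have h02 : ¬ ((0 : Fin 3) = 2) := by decide
  simp only [dgf, h02, if_false]

lemma st_hl (g : HG) (l : Fin 7) : st (g * hl l) = sg l (st g) :=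
  st_mul g (hl_mem l) (repG_hl l)

/-- The shift. -/
def ht : HG := ev tw

lemma ht_eq : ht = hl 0 * hl 1 := by
  rw [ht, tw, ev_append]; rfl

lemma ht_mem : ht ∈ HH := by
  rw [ht_eq]; exact HH.mul_mem (hl_mem 0) (hl_mem 1)

lemma repG_ht : repG ht = dg tt := by
  rw [ht, repG_ev, rw_tw]

lemma st_ht (g : HG) : st (g * ht) = sh 1 (st g) := by
  rw [st_mul g ht_mem repG_ht, tt_apply]

/-- The matching with the bases. -/
def hγ : HG := hl 2
/-- The side lines. -/
def hv : HG := hl 3
/-- The exchanges. -/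
def hw (i : Fin 3) : HG := hl ⟨4 + i.val, by omega⟩

lemma st_hγ (g : HG) : st (g * hγ) = fG (st g) := st_hl g 2

lemma st_hv (g : HG) : st (g * hv) = fV (st g) := st_hl g 3

lemma st_hw (g : HG) (i : Fin 3) : st (g * hw i) = fW i.val (st g) := by
  rw [hw, st_hl, sg_W_apply]

lemma ev_tp (j : ℕ) : ev (tp j) = ht ^ j := by
  induction j with
  | zero => rw [pow_zero]; rfl
  | succ j ih => rw [tp_succ, ev_append, ih, pow_succ']; rfl

lemma ev_vw (j : ℕ) : ev (vw j) = ht ^ j * (hv * (ht ^ j)⁻¹) := by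
  rw [vw, ev_append, ev_append, ev_winv, ev_tp]; rfl

/-- The commutation relations. -/
theorem comm_rel {i : Fin 3} {j : ℕ} (h : psi j i.val) :
    hw i * (ht ^ j * (hv * (ht ^ j)⁻¹)) = ht ^ j * (hv * (ht ^ j)⁻¹) * hw i := by
  have := ev_K h
  rw [ev_vw] at this
  exact this

end Pool.Agent.L5helper51.MD
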