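import Pool.Agent.L5helper51.MD.Ops

set_option autoImplicit false

/-!
Seven involutions on `Om`.
-/

namespace Pool.Agent.L5helper51.MD

open Pool.Agent.H715R3.Medv (stg inA inB chi)

/-- Reflection `p ↦ -p`. -/
def fA (o : Om) : Om := (o.1, o.2.1, o.2.2.1, -o.2.2.2)
/-- Reflection `p ↦ 1 - p`. -/
def fB (o : Om) : Om := (o.1, o.2.1, o.2.2.1, 1 - o.2.2.2)

/-- The main line meets the side lines. -/
def fV : Om → Om
  | (s, f, none, q) => (s, f, some q, 0)
  | (s, f, some q, p) => if p = 0 then (s, f, none, q) else (s, f, some q, p)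

/-- Bases. -/
def isB (o : Om) : Prop := o.2.1 = true ∧ o.2.2.1 = none ∧ o.2.2.2 = 0

instance : DecidablePred isB := fun o => by unfold isB; infer_instance

/-- The base of line `n`. -/
def bs (n : ℕ) : Om := (n, true, none, 0)

lemma isB_bs (n : ℕ) : isB (bs n) := ⟨rfl, rfl, rfl⟩

lemma isB_iff (o : Om) : isB o ↔ o = bs o.1 := by
  obtain ⟨s, f, q, p⟩ := o
  simp [isB, bs]

open Classical in
/-- The matching of the points that are not bases with bases. -/
noncomputable def fG (o : Om) : Om :=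
  if isB o then
    (if h : ∃ x : Om, ¬ isB x ∧ Encodable.encode x = o.1 then h.choose else o)
  else bs (Encodable.encode o)

/-- `j`-th program on input `j` outputs `i`. -/
def psi (j : ℕ) (i : ℕ) : Prop := ∃ s, stg j s = some i

/-- The set on which the `i`-th of the last three involutions acts non-trivially. -/
def Qs (i : ℕ) (o : Om) : Prop :=
  (o.2.2.1 = none ∧ o.2.2.2 = 0) ∨
    ∃ j : ℕ, psi j i ∧ o.2.2.1 = some (j : ℤ) ∧ o.2.2.2 = -(j : ℤ)

open Classical in
/-- Exchange of the two copies on `Qs i`. -/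
noncomputable def fW (i : ℕ) (o : Om) : Om :=
  if Qs i o then (o.1, !o.2.1, o.2.2) else o

lemma fA_fA (o : Om) : fA (fA o) = o := by
  obtain ⟨s, f, q, p⟩ := o
  simp [fA]

lemma fB_fB (o : Om) : fB (fB o) = o := by
  obtain ⟨s, f, q, p⟩ := o
  simp [fB]

lemma fV_fV (o : Om) : fV (fV o) = o := by
  obtain ⟨s, f, _ | q, p⟩ := o
  · simp [fV]
  · by_cases h : p = 0
    · subst h; simp [fV]
    · simp [fV, h]

lemma fG_of_not {o : Om} (h : ¬ isB o) : fG o = bs (Encodable.encode o) := by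
  simp [fG, h]

lemma fG_fG (o : Om) : fG (fG o) = o := by
  by_cases h : isB o
  · by_cases hx : ∃ x : Om, ¬ isB x ∧ Encodable.encode x = o.1
    · have h1 : fG o = hx.choose := by
        rw [fG, if_pos h, dif_pos hx]
      rw [h1, fG_of_not hx.choose_spec.1, hx.choose_spec.2, ← (isB_iff o).1 h]
    · have h1 : fG o = o := by
        rw [fG, if_pos h, dif_neg hx]
      rw [h1, h1]
  · rw [fG_of_not h, fG, if_pos (isB_bs _)]
    have hx : ∃ x : Om, ¬ isB x ∧ Encodable.encode x = (bs (Encodable.encode o)).1 := ⟨o, h, rfl⟩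
    rw [dif_pos hx]
    exact Encodable.encode_injective hx.choose_spec.2

lemma Qs_flip (i : ℕ) (o : Om) : Qs i (o.1, !o.2.1, o.2.2) ↔ Qs i o := Iff.rfl

lemma fW_fW (i : ℕ) (o : Om) : fW i (fW i o) = o := by
  by_cases h : Qs i o
  · have h1 : fW i o = (o.1, !o.2.1, o.2.2) := by rw [fW, if_pos h]
    rw [h1, fW, if_pos ((Qs_flip i o).2 h)]
    simp
  · have h1 : fW i o = o := by rw [fW, if_neg h]
    rw [h1, h1]

/-- The seven involutions. -/
noncomputable def sf (l : Fin 7) : Om → Om :=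
  if l = 0 then fA else if l = 1 then fB else if l = 2 then fG else if l = 3 then fV else
    fW (l.val - 4)

lemma sf_sf (l : Fin 7) (o : Om) : sf l (sf l o) = o := by
  unfold sf
  split_ifs
  · exact fA_fA o
  · exact fB_fB o
  · exact fG_fG o
  · exact fV_fV o
  · exact fW_fW _ o

/-- The seven involutions as permutations. -/
noncomputable def sg (l : Fin 7) : Equiv.Perm Om :=
  (show Function.Involutive (sf l) from sf_sf l).toPerm

lemma sg_apply (l : Fin 7) (o : Om) : sg l o = sf l o := rfl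

lemma sg_sg (l : Fin 7) (o : Om) : sg l (sg l o) = o := sf_sf l o

lemma sg_inv (l : Fin 7) : (sg l)⁻¹ = sg l := by
  apply Equiv.ext
  intro o
  rfl

/-- The shift. -/
def sh (n : ℤ) (o : Om) : Om := (o.1, o.2.1, o.2.2.1, o.2.2.2 + n)

/-- The shift as a permutation. -/
noncomputable def tt : Equiv.Perm Om := sg 1 * sg 0

lemma tt_apply (o : Om) : tt o = sh 1 o := by
  obtain ⟨s, f, q, p⟩ := o
  show fB (fA (s, f, q, p)) = _
  simp only [fA, fB, sh]
  congr 3
  ring

lemma tt_pow_apply (n : ℕ) (o : Om) : (tt ^ n) o = sh n o := by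
  induction n with
  | zero =>
    obtain ⟨s, f, q, p⟩ := o
    simp [sh]
  | succ n ih =>
    rw [pow_succ', Equiv.Perm.mul_apply, ih, tt_apply]
    obtain ⟨s, f, q, p⟩ := o
    simp only [sh]
    congr 3
    push_cast
    ring

lemma tt_pow_inv_apply (n : ℕ) (o : Om) : ((tt ^ n)⁻¹) o = sh (-n) o := by
  rw [Equiv.Perm.inv_eq_iff_eq, tt_pow_apply]
  obtain ⟨s, f, q, p⟩ := o
  simp [sh]

/-- `v` at distance `j`. -/
noncomputable def vj (j : ℕ) : Equiv.Perm Om := (tt ^ j)⁻¹ * (sg 3 * tt ^ j)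

lemma vj_apply (j : ℕ) (o : Om) : vj j o = sh (-j) (fV (sh j o)) := by
  rw [vj, Equiv.Perm.mul_apply, Equiv.Perm.mul_apply, tt_pow_inv_apply, tt_pow_apply]
  rfl

lemma vj_vj (j : ℕ) (o : Om) : vj j (vj j o) = o := by
  rw [vj_apply, vj_apply]
  have h : ∀ x : Om, sh (j : ℤ) (sh (-j) x) = x := by
    rintro ⟨s, f, q, p⟩
    simp [sh]
  have h' : ∀ x : Om, sh (-(j : ℤ)) (sh j x) = x := by
    rintro ⟨s, f, q, p⟩
    simp [sh]
  rw [h, fV_fV, h']

lemma Qs_vj {i j : ℕ} (h : psi j i) {o : Om} (ho : Qs i o) : Qs i (vj j o) := by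
  rw [vj_apply]
  obtain ⟨s, f, q, p⟩ := o
  rcases ho with ⟨h1, h2⟩ | ⟨j', hj', h1, h2⟩
  · simp only at h1 h2
    subst h1 h2
    right
    exact ⟨j, h, by simp [sh, fV], by simp [sh, fV]⟩
  · simp only at h1 h2
    subst h1 h2
    by_cases hjj : j = j'
    · subst hjj
      left
      simp [sh, fV]
    · right
      have hne : ¬ (-(j' : ℤ) + j = 0) := by omega
      refine ⟨j', hj', ?_, ?_⟩
      · simp [sh, fV, hne]
      · simp only [sh, fV, hne, if_false]
        ring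

lemma Qs_vj_iff {i j : ℕ} (h : psi j i) (o : Om) : Qs i (vj j o) ↔ Qs i o :=
  ⟨fun hq => by have := Qs_vj h hq; rwa [vj_vj] at this, Qs_vj h⟩

/-- `v` at distance `j` does not see the copy. -/
lemma vj_flip (j : ℕ) (o : Om) : vj j (o.1, !o.2.1, o.2.2) =
    ((vj j o).1, !(vj j o).2.1, (vj j o).2.2) := by
  rw [vj_apply, vj_apply]
  obtain ⟨s, f, _ | q, p⟩ := o
  · simp [sh, fV]
  · by_cases hp : p + j = 0
    · simp [sh, fV, hp]
    · simp [sh, fV, hp]

/-- The commutation relations. -/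
theorem fW_vj {i j : ℕ} (h : psi j i) (o : Om) : fW i (vj j o) = vj j (fW i o) := by
  by_cases hq : Qs i o
  · rw [fW, if_pos ((Qs_vj_iff h o).2 hq)]
    have h1 : fW i o = (o.1, !o.2.1, o.2.2) := by rw [fW, if_pos hq]
    rw [h1, vj_flip]
  · rw [fW, if_neg (fun hq' => hq ((Qs_vj_iff h o).1 hq'))]
    have h1 : fW i o = o := by rw [fW, if_neg hq]
    rw [h1]

lemma sg_W (i : Fin 3) : sg (⟨4 + i.val, by omega⟩ : Fin 7) =
    (show Function.Involutive (fW i.val) from fW_fW _).toPerm := by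
  apply Equiv.ext
  intro o
  show sf _ o = fW i.val o
  have h : ∀ i : Fin 3, ((⟨4 + i.val, by omega⟩ : Fin 7) ≠ 0) ∧
    ((⟨4 + i.val, by omega⟩ : Fin 7) ≠ 1) ∧ ((⟨4 + i.val, by omega⟩ : Fin 7) ≠ 2) ∧
    ((⟨4 + i.val, by omega⟩ : Fin 7) ≠ 3) := by decide
  obtain ⟨h0, h1, h2, h3⟩ := h i
  unfold sf
  rw [if_neg h0, if_neg h1, if_neg h2, if_neg h3]
  simp

lemma sg_W_apply (i : Fin 3) (o : Om) : sg (⟨4 + i.val, by omega⟩ : Fin 7) o = fW i.val o := by
  rw [sg_W]; rfl

theorem comm_W (i : Fin 3) {j : ℕ} (h : psi j i.val) :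
    sg (⟨4 + i.val, by omega⟩ : Fin 7) * vj j = vj j * sg (⟨4 + i.val, by omega⟩ : Fin 7) := by
  apply Equiv.ext
  intro o
  rw [Equiv.Perm.mul_apply, Equiv.Perm.mul_apply, sg_W_apply, sg_W_apply, fW_vj h]

end Pool.Agent.L5helper51.MD
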